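import Pool.Agent.H87.RN.Price

/-!
# Project RN, plan C (MP_bd0985_co, S11118): interface between the level network and the drawing

`SpotData` : the data of all spots on a drawn network.
`Drawn`    : the geometric conditions on the hubs, the edges with items and the leaves.
`Realise`  : (module C1, helper60) `Drawn` and `SpotData` give a price instance.
-/

set_option autoImplicit false

namespace RNB

open Finset

abbrev E2 := EuclideanSpace ℝ (Fin 2)

/-- The spots: translations `t s`, potentials `Y s` of the hubs, number `k s e` of items of the edge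
`e` taken by its tail, used leaves `used s`, number `r v` of agents at the hub `v`. -/
structure SpotData {V E G : Type} [Fintype V] [Fintype E] [Fintype G] [DecidableEq V]
    (tail head : E → V) (tip : G → V) (b : G → E2) (mult : E → ℕ) (S : Type) where
  t : S → E2
  Y : S → V → ℝ
  k : S → E → ℕ
  used : S → Finset G
  r : V → ℕ
  k_le : ∀ s e, k s e ≤ mult e
  mono : ∀ s s' e, k s' e < k s e → Y s (head e) - Y s (tail e) ≤ Y s' (head e) - Y s' (tail e)
  leaf_used : ∀ s g, g ∈ used s → inner ℝ (b g) (t s) < Y s (tip g)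
  leaf_unused : ∀ s g, g ∉ used s → Y s (tip g) ≤ inner ℝ (b g) (t s)
  cons : ∀ s v, (∑ e ∈ univ.filter (fun e => tail e = v), k s e)
    + (∑ e ∈ univ.filter (fun e => head e = v), (mult e - k s e))
    + ((used s).filter (fun g => tip g = v)).card = r v
  inj : Function.Injective used

/-- Geometric conditions: positions `P` of the hubs, `b` of the leaves. -/
structure Drawn {V E G : Type} (tail head : E → V) (tip : G → V) (b : G → E2) (mult : E → ℕ)
    (P : V → E2) : Prop where
  len_ge : ∀ e, 0 < mult e → 1 ≤ ‖P (head e) - P (tail e)‖ ^ 2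
  len_le : ∀ e, 0 < mult e → ‖P (head e) - P (tail e)‖ ^ 2 ≤ 5 / 4
  gap : ∀ e v, 0 < mult e → v ≠ tail e → v ≠ head e →
    ‖P (head e) - P (tail e)‖ ^ 2 / 4 + 1 / 2 ≤ ‖P v - midpoint ℝ (P (tail e)) (P (head e))‖ ^ 2
  leaf_gap : ∀ g v, v ≠ tip g → 1 + 1 / 8 ≤ ‖P v - b g‖ ^ 2
  leaf_ge : ∀ g, 1 - 1 / 32 ≤ ‖P (tip g) - b g‖ ^ 2
  leaf_le : ∀ g, ‖P (tip g) - b g‖ ^ 2 ≤ 1 + 1 / 32
  tip_inj : Function.Injective tip

end RNB
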