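import Pool.Agent.RNB.Defs
import Pool.Agent.RNB.Spots

/-! PROJECT RN, plan C, module C2: a level network gives spots. -/

set_option autoImplicit false

namespace RNB

open Finset

/-- scale separation for finitely many vectors -/
theorem exists_scale {I : Type*} [Finite I] (D : ℕ) (a : I → Fin D → ℝ) :
    ∃ w : Fin D → ℝ, (∀ l, 0 < w l) ∧ ∀ i l, a i l ≠ 0 →
      ∑ l' ∈ univ.filter (· < l), w l' * |a i l'| < w l * |a i l| := by
  classical
  have := Fintype.ofFinite I
  obtain ⟨A, hA0, hA⟩ : ∃ A : ℝ, 0 ≤ A ∧ ∀ i l, |a i l| ≤ A := by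
    refine ⟨∑ i, ∑ l, |a i l|, by positivity, fun i l => ?_⟩
    calc |a i l| ≤ ∑ l, |a i l| :=
          Finset.single_le_sum (f := fun l => |a i l|) (fun _ _ => abs_nonneg _) (mem_univ l)
      _ ≤ ∑ i, ∑ l, |a i l| :=
          Finset.single_le_sum (f := fun i => ∑ l, |a i l|)
            (fun _ _ => Finset.sum_nonneg fun _ _ => abs_nonneg _) (mem_univ i)
  obtain ⟨m, hm0, hm⟩ : ∃ m : ℝ, 0 < m ∧ ∀ i l, a i l ≠ 0 → m ≤ |a i l| := by
    by_cases hne : ((univ : Finset (I × Fin D)).filter (fun p => a p.1 p.2 ≠ 0)).Nonempty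
    · obtain ⟨p, hp, hmin⟩ := Finset.exists_min_image _ (fun p : I × Fin D => |a p.1 p.2|) hne
      rw [Finset.mem_filter] at hp
      refine ⟨|a p.1 p.2|, abs_pos.mpr hp.2, fun i l hil => ?_⟩
      exact hmin (i, l) (Finset.mem_filter.mpr ⟨mem_univ _, hil⟩)
    · refine ⟨1, one_pos, fun i l hil => ?_⟩
      exact absurd ⟨(i, l), Finset.mem_filter.mpr ⟨mem_univ _, hil⟩⟩ hne
  set T : ℝ := 1 + A / m + 1 with hT
  have hAm : 0 ≤ A / m := by positivity
  have hT0 : 0 < T := by linarith
  have hTm : A ≤ m * (T - 1) := by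
    have : m * (T - 1) = A + m := by rw [hT]; field_simp; ring
    linarith
  refine ⟨fun l => T ^ (l : ℕ), fun l => by positivity, fun i l hil => ?_⟩
  have h1 : ∑ l' ∈ univ.filter (· < l), T ^ (l' : ℕ) * |a i l'|
      ≤ A * ∑ k ∈ range (l : ℕ), T ^ k := by
    rw [Finset.mul_sum]
    calc ∑ l' ∈ univ.filter (· < l), T ^ (l' : ℕ) * |a i l'|
        ≤ ∑ l' ∈ univ.filter (· < l), A * T ^ (l' : ℕ) := by
          refine Finset.sum_le_sum fun l' _ => ?_
          rw [mul_comm]
          exact mul_le_mul_of_nonneg_right (hA i l') (by positivity)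
      _ = ∑ k ∈ (univ.filter (· < l)).image (fun l' : Fin D => (l' : ℕ)), A * T ^ k := by
          rw [Finset.sum_image]
          intro x _ y _ h
          exact Fin.ext h
      _ ≤ ∑ k ∈ range (l : ℕ), A * T ^ k := by
          refine Finset.sum_le_sum_of_subset_of_nonneg ?_ (fun _ _ _ => by positivity)
          intro k hk
          rw [Finset.mem_image] at hk
          obtain ⟨l', hl', rfl⟩ := hk
          rw [Finset.mem_filter] at hl'
          exact Finset.mem_range.mpr hl'.2
  have h2 : (∑ k ∈ range (l : ℕ), T ^ k) * (T - 1) = T ^ (l : ℕ) - 1 := geom_sum_mul T l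
  have hT1 : 0 < T - 1 := by linarith
  have h3 : A * ∑ k ∈ range (l : ℕ), T ^ k < m * T ^ (l : ℕ) := by
    have h4 : 0 ≤ ∑ k ∈ range (l : ℕ), T ^ k := Finset.sum_nonneg fun _ _ => by positivity
    calc A * ∑ k ∈ range (l : ℕ), T ^ k ≤ (m * (T - 1)) * ∑ k ∈ range (l : ℕ), T ^ k :=
          mul_le_mul_of_nonneg_right hTm h4
      _ = m * (T ^ (l : ℕ) - 1) := by rw [← h2]; ring
      _ < m * T ^ (l : ℕ) := by nlinarith
  calc ∑ l' ∈ univ.filter (· < l), T ^ (l' : ℕ) * |a i l'|
      ≤ A * ∑ k ∈ range (l : ℕ), T ^ k := h1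
    _ < m * T ^ (l : ℕ) := h3
    _ ≤ T ^ (l : ℕ) * |a i l| := by
        rw [mul_comm]
        exact mul_le_mul_of_nonneg_left (hm i l hil) (by positivity)

/-- a sum is positive if its top term dominates -/
theorem sum_pos_of_top {D : ℕ} (w a d : Fin D → ℝ) (hw : ∀ l, 0 < w l)
    (h : ∀ l, a l ≠ 0 → ∑ l' ∈ univ.filter (· < l), w l' * |a l'| < w l * |a l|)
    (l₀ : Fin D) (ha : a l₀ ≠ 0) (hd : ∀ l, |d l| ≤ |a l|) (h0 : d l₀ = |a l₀|)
    (htop : ∀ l, l₀ < l → d l = 0) : 0 < ∑ l, w l * d l := by
  classical
  have e : ∑ l, w l * d l = ∑ l ∈ univ.filter (· < l₀), w l * d l + w l₀ * d l₀ := by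
    have e1 : ∀ l, w l * d l = (if l < l₀ then w l * d l else 0)
        + (if l = l₀ then w l * d l else 0) := by
      intro l
      rcases lt_trichotomy l l₀ with hl | hl | hl
      · simp [hl, hl.ne]
      · simp [hl]
      · simp [htop l hl]
    rw [Finset.sum_congr rfl fun l _ => e1 l, Finset.sum_add_distrib, Finset.sum_filter]
    simp
  rw [e, h0]
  have h1 : -(∑ l ∈ univ.filter (· < l₀), w l * |a l|) ≤ ∑ l ∈ univ.filter (· < l₀), w l * d l := by
    rw [← Finset.sum_neg_distrib]
    refine Finset.sum_le_sum fun l _ => ?_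
    have h2 := neg_abs_le (d l)
    have h3 := hd l
    have h4 := hw l
    nlinarith
  have h5 := h l₀ ha
  linarith

/-- sign of a Boolean -/
def sg (b : Bool) : ℝ := if b then 1 else -1

section

variable {V E G : Type} [Fintype V] [Fintype E] [Fintype G] [DecidableEq V] {D : ℕ}

/-- number of items taken by the tail -/
def LevelNet.k (N : LevelNet V E G D) (s : Fin D → Bool) (e : E) : ℕ :=
  ∑ l, if s l then (-N.F l e).toNat else (N.F l e).toNat

/-- number of items taken by the head -/
def LevelNet.k' (N : LevelNet V E G D) (s : Fin D → Bool) (e : E) : ℕ :=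
  ∑ l, if s l then (N.F l e).toNat else (-N.F l e).toNat

theorem LevelNet.k_add (N : LevelNet V E G D) (s : Fin D → Bool) (e : E) :
    N.k s e + N.k' s e = (∑ l, |N.F l e|).toNat := by
  have h : ((N.k s e + N.k' s e : ℕ) : ℤ) = ∑ l, |N.F l e| := by
    unfold LevelNet.k LevelNet.k'
    rw [← Finset.sum_add_distrib]
    push_cast
    refine Finset.sum_congr rfl fun l _ => ?_
    cases s l <;> simp only [Bool.false_eq_true, if_true, if_false] <;>
      rcases abs_cases (N.F l e) with ⟨h1, h2⟩ | ⟨h1, h2⟩ <;> omega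
  omega

/-- used leaves -/
def LevelNet.usd (N : LevelNet V E G D) (s : Fin D → Bool) : Finset G :=
  univ.filter (fun g => s (N.birth g) = !N.snk g)

theorem LevelNet.mono (N : LevelNet V E G D) (w : Fin D → ℝ) (hw : ∀ l, 0 < w l)
    (hsc : ∀ e l, N.X l (N.head e) - N.X l (N.tail e) ≠ 0 →
      ∑ l' ∈ univ.filter (· < l), w l' * |N.X l' (N.head e) - N.X l' (N.tail e)|
        < w l * |N.X l (N.head e) - N.X l (N.tail e)|)
    (s s' : Fin D → Bool) (e : E) (h : N.k s' e < N.k s e) :
    0 < ∑ l, w l * ((sg (s' l) - sg (s l)) / 2 * (N.X l (N.head e) - N.X l (N.tail e))) := by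
  classical
  -- the difference of the numbers
  set ep : Fin D → ℤ := fun l => if s l = s' l then 0 else (if s' l then 1 else -1) with hep
  have hk : (N.k s e : ℤ) - N.k s' e = ∑ l, ep l * N.F l e := by
    unfold LevelNet.k
    push_cast
    rw [← Finset.sum_sub_distrib]
    refine Finset.sum_congr rfl fun l _ => ?_
    simp only [hep]
    cases hs : s l <;> cases hs' : s' l <;> simp <;> omega
  have hpos : 0 < ∑ l, ep l * N.F l e := by rw [← hk]; omega
  -- the highest level which matters
  have hne : (univ.filter (fun l => N.F l e ≠ 0 ∧ s l ≠ s' l)).Nonempty := by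
    by_contra hno
    rw [Finset.not_nonempty_iff_eq_empty] at hno
    have : ∑ l, ep l * N.F l e = 0 := by
      refine Finset.sum_eq_zero fun l _ => ?_
      by_cases hF : N.F l e = 0
      · rw [hF, mul_zero]
      · have hs : s l = s' l := by
          by_contra hs
          have : l ∈ univ.filter (fun l => N.F l e ≠ 0 ∧ s l ≠ s' l) :=
            Finset.mem_filter.mpr ⟨mem_univ _, hF, hs⟩
          rw [hno] at this
          simp at this
        simp [hep, hs]
    omega
  obtain ⟨l₀, hl₀, hmax⟩ := Finset.exists_max_image _ (fun l : Fin D => l) hne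
  rw [Finset.mem_filter] at hl₀
  obtain ⟨-, hF0, hs0⟩ := hl₀
  have habove : ∀ l, l₀ < l → N.F l e = 0 ∨ s l = s' l := by
    intro l hl
    by_contra hcon
    push Not at hcon
    have := hmax l (Finset.mem_filter.mpr ⟨mem_univ _, hcon⟩)
    exact absurd hl (not_lt.mpr this)
  -- the top term is positive
  have hep1 : ∀ l, |ep l| ≤ 1 := by
    intro l
    simp only [hep]
    split_ifs <;> simp
  have hsplit : ∑ l, ep l * N.F l e
      = ∑ l ∈ univ.filter (· < l₀), ep l * N.F l e + ep l₀ * N.F l₀ e := by
    have e1 : ∀ l, ep l * N.F l e = (if l < l₀ then ep l * N.F l e else 0)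
        + (if l = l₀ then ep l * N.F l e else 0) := by
      intro l
      rcases lt_trichotomy l l₀ with hl | hl | hl
      · simp [hl, hl.ne]
      · simp [hl]
      · rcases habove l hl with h1 | h1
        · simp [h1]
        · have : ep l = 0 := by simp [hep, h1]
          simp [this]
    rw [Finset.sum_congr rfl fun l _ => e1 l, Finset.sum_add_distrib, Finset.sum_filter]
    simp
  have hlow : ∑ l ∈ univ.filter (· < l₀), ep l * N.F l e ≤ |N.F l₀ e| := by
    calc ∑ l ∈ univ.filter (· < l₀), ep l * N.F l e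
        ≤ ∑ l ∈ univ.filter (· < l₀), |N.F l e| := by
          refine Finset.sum_le_sum fun l _ => ?_
          calc ep l * N.F l e ≤ |ep l * N.F l e| := le_abs_self _
            _ = |ep l| * |N.F l e| := abs_mul _ _
            _ ≤ 1 * |N.F l e| := mul_le_mul_of_nonneg_right (hep1 l) (abs_nonneg _)
            _ = |N.F l e| := one_mul _
      _ ≤ |N.F l₀ e| := N.super l₀ e hF0
  have hep0 : ep l₀ = 1 ∨ ep l₀ = -1 := by
    simp only [hep, if_neg hs0]
    split_ifs <;> simp
  have htop : 0 < ep l₀ * N.F l₀ e := by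
    by_contra hcon
    have h1 : ep l₀ * N.F l₀ e = -|N.F l₀ e| := by
      rcases hep0 with h2 | h2 <;> rw [h2] at hcon ⊢ <;>
        rcases abs_cases (N.F l₀ e) with ⟨h3, h4⟩ | ⟨h3, h4⟩ <;> omega
    rw [hsplit, h1] at hpos
    omega
  -- relation between `ep` and the signs
  have hsg : ∀ l, (sg (s' l) - sg (s l)) / 2 = (ep l : ℝ) := by
    intro l
    simp only [hep, sg]
    cases s l <;> cases s' l <;> norm_num
  have hX0 : N.X l₀ (N.head e) - N.X l₀ (N.tail e) ≠ 0 := by
    rcases lt_trichotomy (N.F l₀ e) 0 with h1 | h1 | h1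
    · exact (sub_neg.mpr (N.dir_neg l₀ e h1)).ne
    · exact absurd h1 hF0
    · exact (sub_pos.mpr (N.dir_pos l₀ e h1)).ne'
  refine sum_pos_of_top w (fun l => N.X l (N.head e) - N.X l (N.tail e)) _ hw (hsc e) l₀ hX0
    ?_ ?_ ?_
  · intro l
    rw [hsg, abs_mul]
    have : |(ep l : ℝ)| ≤ 1 := by
      have := hep1 l
      exact_mod_cast this
    nlinarith [abs_nonneg (N.X l (N.head e) - N.X l (N.tail e))]
  · rw [hsg]
    rcases hep0 with h2 | h2
    · rw [h2, one_mul] at htop
      have := N.dir_pos l₀ e htop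
      rw [h2, abs_of_pos (sub_pos.mpr this)]
      simp
    · rw [h2] at htop
      have := N.dir_neg l₀ e (by omega)
      rw [h2, abs_of_neg (sub_neg.mpr this)]
      simp
  · intro l hl
    rcases habove l hl with h1 | h1
    · have := N.flat l l₀ e hl hF0 h1
      rw [this]; simp
    · rw [h1]; simp

/-- number of agents at a hub: contribution of one level with given sign -/
def LevelNet.phi (N : LevelNet V E G D) (v : V) (l : Fin D) (b : Bool) : ℕ :=
  (∑ e ∈ univ.filter (fun e => N.tail e = v), if b then (-N.F l e).toNat else (N.F l e).toNat)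
  + (∑ e ∈ univ.filter (fun e => N.head e = v), if b then (N.F l e).toNat else (-N.F l e).toNat)
  + ∑ g ∈ univ.filter (fun g => N.tip g = v ∧ N.birth g = l), if b = !N.snk g then 1 else 0

theorem LevelNet.phi_eq (N : LevelNet V E G D) (v : V) (l : Fin D) (b : Bool) :
    N.phi v l b = N.phi v l false := by
  cases b with
  | false => rfl
  | true =>
    have h := N.cons l v
    have e1 : ∀ x : ℤ, (x.toNat : ℤ) = ((-x).toNat : ℤ) + x := fun x => by omega
    have h1 : ((N.phi v l false : ℕ) : ℤ) - (N.phi v l true : ℕ)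
        = (∑ e ∈ univ.filter (fun e => N.tail e = v), N.F l e)
          - (∑ e ∈ univ.filter (fun e => N.head e = v), N.F l e)
          + ∑ g ∈ univ.filter (fun g => N.tip g = v ∧ N.birth g = l),
              (if N.snk g then 1 else -1 : ℤ) := by
      unfold LevelNet.phi
      push_cast
      simp only [Bool.false_eq_true, if_false, if_true]
      have a1 : ∑ e ∈ univ.filter (fun e => N.tail e = v), N.F l e
          = ∑ e ∈ univ.filter (fun e => N.tail e = v), ((N.F l e).toNat : ℤ)
            - ∑ e ∈ univ.filter (fun e => N.tail e = v), ((-N.F l e).toNat : ℤ) := by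
        rw [← Finset.sum_sub_distrib]
        exact Finset.sum_congr rfl fun e _ => by omega
      have a2 : ∑ e ∈ univ.filter (fun e => N.head e = v), N.F l e
          = ∑ e ∈ univ.filter (fun e => N.head e = v), ((N.F l e).toNat : ℤ)
            - ∑ e ∈ univ.filter (fun e => N.head e = v), ((-N.F l e).toNat : ℤ) := by
        rw [← Finset.sum_sub_distrib]
        exact Finset.sum_congr rfl fun e _ => by omega
      have a3 : ∑ g ∈ univ.filter (fun g => N.tip g = v ∧ N.birth g = l),
              (if N.snk g then 1 else -1 : ℤ)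
          = ∑ g ∈ univ.filter (fun g => N.tip g = v ∧ N.birth g = l),
              (if false = !N.snk g then 1 else 0 : ℤ)
            - ∑ g ∈ univ.filter (fun g => N.tip g = v ∧ N.birth g = l),
              (if true = !N.snk g then 1 else 0 : ℤ) := by
        rw [← Finset.sum_sub_distrib]
        refine Finset.sum_congr rfl fun g _ => ?_
        cases N.snk g <;> simp
      rw [a1, a2, a3]
      ring
    omega

theorem LevelNet.count (N : LevelNet V E G D) (s : Fin D → Bool) (v : V) :
    (∑ e ∈ univ.filter (fun e => N.tail e = v), N.k s e)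
      + (∑ e ∈ univ.filter (fun e => N.head e = v), ((∑ l, |N.F l e|).toNat - N.k s e))
      + ((N.usd s).filter (fun g => N.tip g = v)).card = ∑ l, N.phi v l false := by
  classical
  have h1 : ∀ e, (∑ l, |N.F l e|).toNat - N.k s e = N.k' s e := fun e => by
    have := N.k_add s e
    omega
  simp only [h1]
  rw [← Finset.sum_congr rfl fun l _ => N.phi_eq v l (s l)]
  unfold LevelNet.phi LevelNet.k LevelNet.k' LevelNet.usd
  rw [Finset.sum_add_distrib, Finset.sum_add_distrib]
  congr 1
  · congr 1
    · exact Finset.sum_comm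
    · exact Finset.sum_comm
  · rw [Finset.card_eq_sum_ones, Finset.filter_filter, Finset.sum_filter]
    have : ∀ l, (∑ g ∈ univ.filter (fun g => N.tip g = v ∧ N.birth g = l),
        if s l = !N.snk g then 1 else 0)
        = ∑ g, if (N.tip g = v ∧ N.birth g = l) then (if s l = !N.snk g then 1 else 0) else 0 := by
      intro l
      rw [Finset.sum_filter]
    rw [Finset.sum_congr rfl fun l _ => this l, Finset.sum_comm]
    refine Finset.sum_congr rfl fun g _ => ?_
    rw [Finset.sum_eq_single (N.birth g)]
    · by_cases h2 : N.tip g = v <;> by_cases h3 : s (N.birth g) = !N.snk g <;> simp [h2, h3]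
    · intro l _ hl
      rw [if_neg]
      rintro ⟨-, h⟩
      exact hl h.symm
    · intro h
      exact absurd (mem_univ _) h

/-- **C2.** A level network whose heights are linear in the positions gives spots. -/
theorem spots_of_level (N : LevelNet V E G D) (b : G → E2) (th : Fin D → E2) (ka : Fin D → ℝ)
    (hth : ∀ τ g, inner ℝ (b g) (th τ) = N.h τ g + ka τ) :
    Nonempty (SpotData N.tail N.head N.tip b (fun e => (∑ τ, |N.F τ e|).toNat)
      (Fin D → Bool)) := by
  classical
  obtain ⟨w, hw, hsc⟩ := exists_scale D (I := E ⊕ G) (fun i l => match i with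
    | .inl e => N.X l (N.head e) - N.X l (N.tail e)
    | .inr g => N.X l (N.tip g) - N.h l g)
  -- the sign condition of a leaf
  have hleaf : ∀ (s : Fin D → Bool) (g : G), 0 < sg (s (N.birth g)) *
      (N.X (N.birth g) (N.tip g) - N.h (N.birth g) g) ↔ s (N.birth g) = !N.snk g := by
    intro s g
    cases hg : N.snk g
    · have := sub_pos.mpr (N.leaf_src g hg)
      cases hs : s (N.birth g)
      · simp only [sg, Bool.false_eq_true, if_false, Bool.not_false, iff_false, not_lt]
        linarith
      · simp only [sg, if_true, Bool.not_false, iff_true]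
        linarith
    · have := sub_neg.mpr (N.leaf_snk g hg)
      cases hs : s (N.birth g)
      · simp only [sg, Bool.false_eq_true, if_false, Bool.not_true, iff_true]
        linarith
      · simp only [sg, if_true, Bool.not_true, Bool.true_eq_false, iff_false, not_lt]
        linarith
  have hne : ∀ g, N.X (N.birth g) (N.tip g) - N.h (N.birth g) g ≠ 0 := by
    intro g
    cases hg : N.snk g
    · exact (sub_pos.mpr (N.leaf_src g hg)).ne'
    · exact (sub_neg.mpr (N.leaf_snk g hg)).ne
  have habs : ∀ (b : Bool) (x : ℝ), |sg b * x| ≤ |x| := by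
    intro b x
    cases b <;> simp [sg]
  have hinner : ∀ (s : Fin D → Bool) (g : G),
      inner ℝ (b g) (∑ l, (w l * sg (s l)) • th l)
        = ∑ l, w l * sg (s l) * (N.h l g + ka l) := by
    intro s g
    rw [inner_sum]
    refine Finset.sum_congr rfl fun l _ => ?_
    rw [inner_smul_right, hth]
  have hdiff : ∀ (s : Fin D → Bool) (g : G),
      (∑ l, w l * sg (s l) * (N.X l (N.tip g) + ka l))
        - (∑ l, w l * sg (s l) * (N.h l g + ka l))
        = ∑ l, w l * (sg (s l) * (N.X l (N.tip g) - N.h l g)) := by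
    intro s g
    rw [← Finset.sum_sub_distrib]
    exact Finset.sum_congr rfl fun l _ => by ring
  refine ⟨{
    t := fun s => ∑ l, (w l * sg (s l)) • th l
    Y := fun s v => ∑ l, w l * sg (s l) * (N.X l v + ka l)
    k := fun s e => N.k s e
    used := fun s => N.usd s
    r := fun v => ∑ l, N.phi v l false
    k_le := ?_, mono := ?_, leaf_used := ?_, leaf_unused := ?_, cons := ?_, inj := ?_ }⟩
  · intro s e
    have := N.k_add s e
    omega
  · intro s s' e h
    have h1 := N.mono w hw (fun e l => hsc (Sum.inl e) l) s s' e h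
    have h2 : (∑ l, w l * sg (s' l) * (N.X l (N.head e) + ka l))
        - (∑ l, w l * sg (s' l) * (N.X l (N.tail e) + ka l))
        - ((∑ l, w l * sg (s l) * (N.X l (N.head e) + ka l))
          - (∑ l, w l * sg (s l) * (N.X l (N.tail e) + ka l)))
        = 2 * ∑ l, w l * ((sg (s' l) - sg (s l)) / 2 *
            (N.X l (N.head e) - N.X l (N.tail e))) := by
      rw [← Finset.sum_sub_distrib, ← Finset.sum_sub_distrib, ← Finset.sum_sub_distrib,
        Finset.mul_sum]
      exact Finset.sum_congr rfl fun l _ => by ring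
    linarith
  · intro s g hg
    rw [LevelNet.usd, Finset.mem_filter] at hg
    have h1 := (hleaf s g).mpr hg.2
    have h2 := sum_pos_of_top w (fun l => N.X l (N.tip g) - N.h l g)
      (fun l => sg (s l) * (N.X l (N.tip g) - N.h l g)) hw (fun l => hsc (Sum.inr g) l)
      (N.birth g) (hne g) (fun l => habs _ _) (by
        have h3 : |sg (s (N.birth g)) * (N.X (N.birth g) (N.tip g) - N.h (N.birth g) g)|
            = |N.X (N.birth g) (N.tip g) - N.h (N.birth g) g| := by
          rw [abs_mul]
          cases s (N.birth g) <;> simp [sg]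
        rw [← h3, abs_of_pos h1]) (fun l hl => by
        rw [N.leaf_old g l hl]; simp)
    rw [hinner]
    have := hdiff s g
    linarith
  · intro s g hg
    rw [LevelNet.usd, Finset.mem_filter] at hg
    have h1 : ¬ (0 < sg (s (N.birth g)) *
      (N.X (N.birth g) (N.tip g) - N.h (N.birth g) g)) := by
      rw [hleaf s g]
      intro h
      exact hg ⟨mem_univ _, h⟩
    have h2 := sum_pos_of_top w (fun l => N.X l (N.tip g) - N.h l g)
      (fun l => -(sg (s l) * (N.X l (N.tip g) - N.h l g))) hw (fun l => hsc (Sum.inr g) l)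
      (N.birth g) (hne g) (fun l => by rw [abs_neg]; exact habs _ _) (by
        have h3 : |sg (s (N.birth g)) * (N.X (N.birth g) (N.tip g) - N.h (N.birth g) g)|
            = |N.X (N.birth g) (N.tip g) - N.h (N.birth g) g| := by
          rw [abs_mul]
          cases s (N.birth g) <;> simp [sg]
        rw [← h3, abs_of_nonpos (not_lt.mp h1)]) (fun l hl => by
        rw [N.leaf_old g l hl]; simp)
    have h3 : ∑ l, w l * -(sg (s l) * (N.X l (N.tip g) - N.h l g))
        = -∑ l, w l * (sg (s l) * (N.X l (N.tip g) - N.h l g)) := by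
      rw [← Finset.sum_neg_distrib]
      exact Finset.sum_congr rfl fun l _ => by ring
    rw [h3] at h2
    rw [hinner]
    have := hdiff s g
    linarith
  · intro s v
    exact N.count s v
  · intro s s' h
    funext τ
    obtain ⟨g, hg⟩ := N.level_nonempty τ
    have h1 : g ∈ N.usd s ↔ g ∈ N.usd s' := by
      have : N.usd s = N.usd s' := h
      rw [this]
    simp only [LevelNet.usd, Finset.mem_filter, mem_univ, true_and, hg] at h1
    cases hs : s τ <;> cases hs' : s' τ <;> cases hk : N.snk g <;>
      simp [hs, hs', hk] at h1 ⊢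

end

end RNB
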