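import Pool.Agent.RNB.B3H

/-!
# Project RN, plan C, B3: bounds for the horizontal flows (helper45)
-/

set_option autoImplicit false

namespace RNB.B3

open Finset

variable {g K : ℕ}

theorem h_HS_mono {i i' : ℕ} (h : i ≤ i') (hi : i' ≤ g) :
    Hn g K i * S g K i ≤ Hn g K i' * S g K i' := by
  induction i', h using Nat.le_induction with
  | base => exact le_rfl
  | succ n hn ih =>
    refine (ih (by omega)).trans ?_
    rw [Hn, h_S_succ (by omega : n < g)]
    have hS := h_S_pos (g := g) (K := K) (n + 1)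
    have h2 : 0 < B K ^ g := pow_pos h_B_pos _
    have h3 := h_E_nonneg (g := g) (K := K)
    nlinarith [mul_pos h2 hS, mul_nonneg h3 hS.le]

theorem h_HS_le_W {i : ℕ} (hi : i ≤ g) : Hn g K i * S g K i ≤ W g K := by
  have := h_HS_mono (K := K) hi le_rfl
  unfold W
  have e : S g K g = L g K := by unfold S; simp
  rw [e] at this
  exact this

theorem h_pa_le {i j : ℕ} (hj : j < K) {y : ℤ} (hy : y < M g K) {a : ℕ} (ha : a < 2 ^ j) :
    pa g K i j y a ≤ Hn g K (i + 1) * S g K (i + 1) := by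
  have hS' := h_S_pos (g := g) (K := K) (i + 1)
  have hM := h_M_pos (g := g) (K := K)
  unfold pa
  apply mul_le_mul_of_nonneg_right _ hS'.le
  rw [Hn]
  unfold E
  have h1 : (a : ℤ) + 1 ≤ 2 ^ K := by
    have : 2 ^ j ≤ 2 ^ K := Nat.pow_le_pow_right (by norm_num) hj.le
    have h' : a + 1 ≤ 2 ^ K := by omega
    exact_mod_cast h'
  have h2 : ((j : ℤ) + 1) ≤ K := by exact_mod_cast hj
  have h3 : (0 : ℤ) < 2 ^ K := by positivity
  have h4 : ((j : ℤ) + 1) * M g K ≤ K * M g K := mul_le_mul_of_nonneg_right h2 hM.le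
  have h5 : ((j : ℤ) * M g K + y + 1) * 2 ^ K ≤ (K * M g K) * 2 ^ K := by
    apply mul_le_mul_of_nonneg_right _ h3.le
    nlinarith
  nlinarith

/-- where the horizontal flow lives -/
theorem h_FH2_supp {i j : ℕ} (hi : i < g) (hj : j < K) {x y : ℤ} (h : FH2 g K i j x y ≠ 0) :
    -W g K ≤ x ∧ x + 1 ≤ W g K ∧ 0 ≤ y ∧ y < M g K := by
  have hS' := h_S_pos (g := g) (K := K) (i + 1)
  have hBg : 0 < B K ^ g := pow_pos h_B_pos _
  have hsg := h_sg_pos (g := g) (K := K)
  have hE := h_E_nonneg (g := g) (K := K)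
  have hW := h_HS_le_W (g := g) (K := K) (i := i + 1) hi
  have hy : 0 ≤ y ∧ y < M g K := by
    obtain ⟨j0, -, hn⟩ := h_level_of_FH2 h
    rcases hn with hn | hn
    · exact ⟨hn.1, hn.2.1⟩
    · exact ⟨hn.1, hn.2.1⟩
  have pS : ∀ p : ℤ, -Hn g K i ≤ p → p ≤ Hn g K i →
      -(sg g K * Hn g K i * S g K (i + 1)) ≤ p * S g K i ∧
        p * S g K i ≤ sg g K * Hn g K i * S g K (i + 1) := by
    intro p h1 h2
    have e : p * S g K i = p * (sg g K * S g K (i + 1)) := by rw [h_S_succ hi]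
    have hpos : 0 ≤ sg g K * S g K (i + 1) := by positivity
    have e1 := mul_le_mul_of_nonneg_right h1 hpos
    have e2 := mul_le_mul_of_nonneg_right h2 hpos
    rw [e]
    constructor <;> linarith
  have hle : (y / 2 + 1) * S g K (i + 1) ≤ B K ^ g * S g K (i + 1) :=
    mul_le_mul_of_nonneg_right (h_half_bound hy.1 hy.2).2 hS'.le
  have hHn : Hn g K (i + 1) * S g K (i + 1)
      = sg g K * Hn g K i * S g K (i + 1) + B K ^ g * S g K (i + 1) + E g K * S g K (i + 1) := by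
    rw [Hn]; ring
  have hES : 0 ≤ E g K * S g K (i + 1) := mul_nonneg hE hS'.le
  refine ⟨?_, ?_, hy.1, hy.2⟩
  · rcases h_FH2_ne h with ⟨h1, p, hp1, hp2, h2, h3⟩ | ⟨h1, p, hp1, hp2, h2, h3⟩ |
        ⟨h1, a', ha', h2, h3⟩
    · have := (pS p hp1 hp2).1
      linarith
    · have := (pS p hp1 hp2).1
      have : 0 ≤ B K ^ g * S g K (i + 1) := by positivity
      linarith
    · have := h_pa_le (g := g) (i := i) hj hy.2 ha'
      linarith
  · rcases h_FH2_ne h with ⟨h1, p, hp1, hp2, h2, h3⟩ | ⟨h1, p, hp1, hp2, h2, h3⟩ |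
        ⟨h1, a', ha', h2, h3⟩
    · have := (pS p hp1 hp2).2
      have : 0 ≤ B K ^ g * S g K (i + 1) := by positivity
      linarith [Int.add_one_le_iff.2 h3]
    · have := (pS p hp1 hp2).2
      linarith [Int.add_one_le_iff.2 h3]
    · have := h_pa_le (g := g) (i := i) hj hy.2 ha'
      linarith [Int.add_one_le_iff.2 h3]

/-- field `FH_supp` -/
theorem FH_supp (τ : ℕ) (x y : ℤ) (h : FH g K τ x y ≠ 0) :
    -(((W g K).toNat : ℕ) : ℤ) ≤ x ∧ x + 1 ≤ (((W g K).toNat : ℕ) : ℤ) ∧ 0 ≤ y ∧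
      y < (((M g K).toNat : ℕ) : ℤ) := by
  have hτ : τ < g * K := by
    by_contra hc
    apply h
    unfold FH
    rw [if_neg hc]
  obtain ⟨i, j, hi, hj, rfl⟩ := h_split hτ
  rw [h_FH hi hj] at h
  rw [Int.toNat_of_nonneg h_W_nonneg, Int.toNat_of_nonneg h_M_pos.le]
  exact h_FH2_supp hi hj h

/-- field `FH_bound` -/
theorem FH_bound (x y : ℤ) : (∑ τ ∈ range (g * K), FH g K τ x y) ≤ ((2 ^ K : ℕ) : ℤ) := by
  by_cases hex : ∃ τ ∈ range (g * K), FH g K τ x y ≠ 0
  · classical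
    have hne : ((range (g * K)).filter (fun τ => FH g K τ x y ≠ 0)).Nonempty := by
      obtain ⟨τ, h1, h2⟩ := hex
      exact ⟨τ, mem_filter.2 ⟨h1, h2⟩⟩
    obtain ⟨τ0, hτ0, hmax⟩ := exists_max_image _ id hne
    rw [mem_filter, mem_range] at hτ0
    have e : ∑ τ ∈ range (g * K), FH g K τ x y = ∑ τ ∈ range (τ0 + 1), FH g K τ x y := by
      symm
      apply sum_subset
      · intro τ hτ
        rw [mem_range] at hτ ⊢
        omega
      · intro τ hτ hnot
        by_contra hc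
        have := hmax τ (mem_filter.2 ⟨hτ, hc⟩)
        simp only [id] at this
        rw [mem_range] at hnot
        omega
    rw [e, sum_range_succ]
    have h1 := H_super τ0 x y hτ0.1 hτ0.2
    have h2 : FH g K τ0 x y * 2 ≤ 2 ^ K := by
      obtain ⟨i, j, hi, hj, rfl⟩ := h_split hτ0.1
      rw [h_FH hi hj]
      have h3 := h_FH2_le hi hj x y
      have h4 : (2 : ℤ) ^ j * 2 ≤ 2 ^ K := by
        rw [← pow_succ]
        exact pow_le_pow_right₀ (by norm_num) hj
      linarith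
    push_cast
    linarith
  · push Not at hex
    rw [sum_eq_zero hex]
    positivity

end RNB.B3
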