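import Mathlib

/-!
# Project RN, plan B (MP_bd0985_co, S11118): interfaces

`LevelNet` : a network of hubs, edges (bundles) and leaves with `D` levels of potentials and flows
(level `0` = deepest = least significant, level `D-1` = outermost = most significant).
`GridNet` : the same on the integer grid (columns `-W..W`, rows `0..M-1`), at most one leaf per
column, with the data needed for the drawing.
-/

set_option autoImplicit false

namespace RNB

open Finset

/-- Conditions (i)-(iii) of note 2705 (1) and conservation. -/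
structure LevelNet (V E G : Type) [Fintype V] [Fintype E] [Fintype G] [DecidableEq V]
    (D : ℕ) where
  /-- lower end of an edge -/
  tail : E → V
  /-- the other end of an edge -/
  head : E → V
  /-- the hub carrying the leaf -/
  tip : G → V
  /-- birth level of a leaf -/
  birth : G → Fin D
  /-- `true`: sink (f-leaf, its height at birth is above the potential of its hub),
  `false`: source (e-leaf) -/
  snk : G → Bool
  /-- potential of level `τ` -/
  X : Fin D → V → ℝ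
  /-- flow of level `τ` from `tail` to `head` -/
  F : Fin D → E → ℤ
  /-- height of a leaf at level `τ` -/
  h : Fin D → G → ℝ
  dir_pos : ∀ τ e, 0 < F τ e → X τ (tail e) < X τ (head e)
  dir_neg : ∀ τ e, F τ e < 0 → X τ (head e) < X τ (tail e)
  flat : ∀ τ τ' e, τ' < τ → F τ' e ≠ 0 → F τ e = 0 → X τ (tail e) = X τ (head e)
  super : ∀ τ e, F τ e ≠ 0 → (∑ τ' ∈ univ.filter (· < τ), |F τ' e|) ≤ |F τ e|
  leaf_old : ∀ g τ, birth g < τ → X τ (tip g) = h τ g
  leaf_snk : ∀ g, snk g = true → X (birth g) (tip g) < h (birth g) g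
  leaf_src : ∀ g, snk g = false → h (birth g) g < X (birth g) (tip g)
  cons : ∀ τ v, (∑ e ∈ univ.filter (fun e => head e = v), F τ e)
      = (∑ e ∈ univ.filter (fun e => tail e = v), F τ e)
        + ∑ g ∈ univ.filter (fun g => tip g = v ∧ birth g = τ), (if snk g then 1 else -1 : ℤ)
  level_nonempty : ∀ τ, ∃ g, birth g = τ

/-- The grid form: all functions live on `ℤ × ℤ`, only `|x| ≤ W`, `0 ≤ y < M`, `τ < D` matter. -/
structure GridNet (D : ℕ) where
  /-- half width -/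
  W : ℕ
  /-- number of rows -/
  M : ℕ
  /-- spacing of the leaf columns -/
  L : ℕ
  /-- `lf x`: there is a leaf in column `x` -/
  lf : ℤ → Prop
  /-- the row of the hub carrying the leaf of column `x` -/
  tip : ℤ → ℤ
  /-- the leaf hangs above its hub (`true`) or below its hub (`false`) -/
  up : ℤ → Bool
  birth : ℤ → ℕ
  snk : ℤ → Bool
  /-- potentials -/
  X : ℕ → ℤ → ℤ → ℝ
  /-- flow of level `τ` on the edge from `(x,y)` to `(x+1,y)` -/
  FH : ℕ → ℤ → ℤ → ℤ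
  /-- flow of level `τ` on the edge from `(x,y)` to `(x,y+1)` -/
  FV : ℕ → ℤ → ℤ → ℤ
  /-- slope of level `τ`: `θ_τ = (1, - c τ)` -/
  c : ℕ → ℝ
  /-- vertical offset of the leaf of column `x`; the leaf is at `(x, 1 + η x)` -/
  η : ℤ → ℝ
  M_pos : 1 ≤ M
  L_ge : 2 * (M + 2) ≤ L
  η_nonneg : ∀ x, 0 ≤ η x
  η_le : ∀ x, η x ≤ 1 / 100
  lf_range : ∀ x, lf x → -(W : ℤ) ≤ x ∧ x ≤ W
  lf_dvd : ∀ x, lf x → (L : ℤ) ∣ x
  tip_range : ∀ x, lf x → 0 ≤ tip x ∧ tip x < M
  birth_lt : ∀ x, lf x → birth x < D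
  level_nonempty : ∀ τ, τ < D → ∃ x, lf x ∧ birth x = τ
  -- support of the flows
  FH_supp : ∀ τ x y, FH τ x y ≠ 0 → -(W : ℤ) ≤ x ∧ x + 1 ≤ W ∧ 0 ≤ y ∧ y < M
  FV_supp : ∀ τ x y, FV τ x y ≠ 0 → -(W : ℤ) ≤ x ∧ x ≤ W ∧ 0 ≤ y ∧ y + 1 < M
  FV_dvd : ∀ τ x y, FV τ x y ≠ 0 → (L : ℤ) ∣ x
  /-- no vertical flow through the gap of the leaf of this column -/
  FV_gap : ∀ τ x y, lf x → FV τ x y ≠ 0 → y ≠ (if up x then tip x else tip x - 1)
  /-- bound for the number of parallel copies of an edge -/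
  Q : ℕ
  FH_bound : ∀ x y, (∑ τ ∈ range D, FH τ x y) ≤ Q
  FV_bound : ∀ x y, (∑ τ ∈ range D, |FV τ x y|) ≤ Q
  -- conditions
  H_nonneg : ∀ τ x y, τ < D → 0 ≤ FH τ x y
  H_dir : ∀ τ x y, τ < D → 0 < FH τ x y → X τ x y < X τ (x + 1) y
  H_flat : ∀ τ τ' x y, τ' < τ → τ < D → FH τ' x y ≠ 0 → FH τ x y = 0 → X τ x y = X τ (x + 1) y
  H_super : ∀ τ x y, τ < D → FH τ x y ≠ 0 → (∑ τ' ∈ range τ, FH τ' x y) ≤ FH τ x y
  V_pos : ∀ τ x y, τ < D → 0 < FV τ x y → X τ x y < X τ x (y + 1)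
  V_neg : ∀ τ x y, τ < D → FV τ x y < 0 → X τ x (y + 1) < X τ x y
  V_flat : ∀ τ τ' x y, τ' < τ → τ < D → FV τ' x y ≠ 0 → FV τ x y = 0 → X τ x y = X τ x (y + 1)
  V_super : ∀ τ x y, τ < D → FV τ x y ≠ 0 → (∑ τ' ∈ range τ, |FV τ' x y|) ≤ |FV τ x y|
  leaf_old : ∀ x τ, lf x → birth x < τ → τ < D → X τ x (tip x) = x - c τ * η x
  leaf_snk : ∀ x, lf x → snk x = true → X (birth x) x (tip x) < x - c (birth x) * η x
  leaf_src : ∀ x, lf x → snk x = false → x - c (birth x) * η x < X (birth x) x (tip x)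
  cons_leaf : ∀ τ x y, τ < D → lf x → birth x = τ → y = tip x →
    FH τ (x - 1) y + FV τ x (y - 1) = FH τ x y + FV τ x y + (if snk x then 1 else -1)
  cons_else : ∀ τ x y, τ < D → ¬ (lf x ∧ birth x = τ ∧ y = tip x) →
    FH τ (x - 1) y + FV τ x (y - 1) = FH τ x y + FV τ x y

end RNB
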