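import Pool.Agent.RNB.B3Defs

/-!
# Project RN, plan C, B3: the horizontal fields (helper45)
-/

set_option autoImplicit false

namespace RNB.B3

open Finset

variable {g K : ℕ}

theorem h_B_pos : 0 < B K := by unfold B; positivity

theorem h_B_odd : Odd (B K) := ⟨K, by unfold B; ring⟩

theorem h_U_pos (i : ℕ) : 0 < U g K i := pow_pos h_B_pos _

theorem h_U_odd (i : ℕ) : Odd (U g K i) := h_B_odd.pow

theorem h_U_succ {i : ℕ} (hi : i < g) : U g K i = B K * U g K (i + 1) := by
  unfold U
  have : g - i = (g - (i + 1)) + 1 := by omega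
  rw [this, pow_succ]
  ring

theorem h_U_dvd {i i' : ℕ} (h : i' ≤ i) (hi : i ≤ g) :
    ∃ m : ℤ, U g K i' = (2 * m + 1) * U g K i := by
  unfold U
  have e : g - i' = (i - i') + (g - i) := by omega
  obtain ⟨m, hm⟩ := (h_B_odd (K := K)).pow (n := i - i')
  exact ⟨m, by rw [e, pow_add, hm]⟩

theorem h_M_pos : 0 < M g K := by
  unfold M
  have : 0 < B K ^ g := pow_pos h_B_pos _
  omega

theorem h_L_pos : 0 < L g K := by
  unfold L
  have := h_M_pos (g := g) (K := K)
  omega

theorem h_sg_pos : 0 < sg g K := by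
  unfold sg
  have : 0 < B K ^ g := pow_pos h_B_pos _
  omega

theorem h_S_pos (i : ℕ) : 0 < S g K i := by
  unfold S
  exact mul_pos h_L_pos (pow_pos h_sg_pos _)

theorem h_S_succ {i : ℕ} (hi : i < g) : S g K i = sg g K * S g K (i + 1) := by
  unfold S
  have : g - i = (g - (i + 1)) + 1 := by omega
  rw [this, pow_succ]
  ring

theorem h_E_nonneg : 0 ≤ E g K := by
  unfold E
  have := h_M_pos (g := g) (K := K)
  positivity

theorem h_Hn_nonneg (i : ℕ) : 0 ≤ Hn g K i := by
  induction i with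
  | zero => simp [Hn]
  | succ n ih =>
    rw [Hn]
    have h1 := h_sg_pos (g := g) (K := K)
    have h2 : 0 < B K ^ g := pow_pos h_B_pos _
    have h3 := h_E_nonneg (g := g) (K := K)
    positivity

/-- residue of a row which is alive in generation `i` -/
def Alive (g K : ℕ) (i : ℕ) (y : ℤ) : Prop :=
  y % (2 * U g K (i + 1)) = U g K (i + 1) - 1 ∨ y % (2 * U g K (i + 1)) = U g K (i + 1)

/-- `Rr` in digits -/
theorem h_Rr_eq {i : ℕ} (hi : i < g) (y : ℤ) :
    Rr g K i y % (2 * U g K (i + 1)) = y % (2 * U g K (i + 1)) := by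
  unfold Rr
  apply Int.emod_emod_of_dvd
  rw [h_U_succ hi]
  exact ⟨B K, by ring⟩

theorem h_Rr_bounds (i : ℕ) (y : ℤ) : 0 ≤ Rr g K i y ∧ Rr g K i y < 2 * U g K i := by
  unfold Rr
  have := h_U_pos (g := g) (K := K) i
  exact ⟨Int.emod_nonneg _ (by omega), Int.emod_lt_of_pos _ (by omega)⟩

theorem h_mod_of_eq {u r q ρ : ℤ} (_hu : 0 < u) (h : r = 2 * u * q + ρ) (h0 : 0 ≤ ρ)
    (h1 : ρ < 2 * u) : r % (2 * u) = ρ := by
  rw [h]
  rw [add_comm, Int.add_mul_emod_self_left]
  exact Int.emod_eq_of_lt h0 h1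

theorem h_alive_of_newb {i j : ℕ} (hi : i < g) {y : ℤ} (h : newb g K i j y) :
    Alive g K i y := by
  have hu := h_U_pos (g := g) (K := K) (i + 1)
  have hU := h_U_succ (K := K) hi
  unfold Alive
  rw [← h_Rr_eq hi y]
  rcases h with ⟨-, -, h | h⟩ | ⟨-, -, h | h⟩
  · left
    refine h_mod_of_eq (q := 2 * K - j) hu ?_ (by omega) (by omega)
    rw [h, hU]; unfold aj B; ring
  · right
    refine h_mod_of_eq (q := j) hu ?_ (by omega) (by omega)
    rw [h, hU]; unfold aj B; ring
  · right
    refine h_mod_of_eq (q := 2 * K - j) hu ?_ (by omega) (by omega)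
    rw [h, hU]; unfold aj B; ring
  · left
    refine h_mod_of_eq (q := j) hu ?_ (by omega) (by omega)
    rw [h, hU]; unfold aj B; ring

theorem h_alive_of_young {i j : ℕ} (hi : i < g) {y : ℤ} (h : young g K i j y) :
    Alive g K i y := by
  obtain ⟨j', -, h⟩ := h
  exact h_alive_of_newb hi h

/-- steps of `aj` -/
theorem h_aj_lt {i j j' : ℕ} (h : j < j') :
    aj g K i j' + 2 * U g K (i + 1) ≤ aj g K i j := by
  have hu := h_U_pos (g := g) (K := K) (i + 1)
  have h2 : (j : ℤ) + 1 ≤ j' := by exact_mod_cast h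
  have h3 : U g K (i + 1) * ((j : ℤ) + 1) ≤ U g K (i + 1) * j' :=
    mul_le_mul_of_nonneg_left h2 hu.le
  unfold aj
  nlinarith

theorem h_aj_pos {i j : ℕ} (h : j < K) : 2 * U g K (i + 1) ≤ aj g K i j := by
  have hu := h_U_pos (g := g) (K := K) (i + 1)
  have h2 : (1 : ℤ) ≤ (K : ℤ) - j := by
    have : (j : ℤ) + 1 ≤ K := by exact_mod_cast h
    linarith
  unfold aj
  nlinarith

/-- levels of newborn rows are unique inside one generation -/
theorem h_newb_unique {i j j' : ℕ} (hj : j < K) (hj' : j' < K) {y : ℤ}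
    (h : newb g K i j y) (h' : newb g K i j' y) : j = j' := by
  have hu := h_U_pos (g := g) (K := K) (i + 1)
  by_contra hne
  have key : ∀ a b : ℕ, a < b → b < K → ∀ r : ℤ,
      (r = U g K i - 1 + aj g K i a ∨ r = U g K i - aj g K i a ∨
        r = U g K i + aj g K i a ∨ r = U g K i - 1 - aj g K i a) →
      (r = U g K i - 1 + aj g K i b ∨ r = U g K i - aj g K i b ∨
        r = U g K i + aj g K i b ∨ r = U g K i - 1 - aj g K i b) → False := by
    intro a b hab hb r h1 h2
    have e1 := h_aj_lt (g := g) (K := K) (i := i) hab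
    have e2 := h_aj_pos (g := g) (K := K) (i := i) hb
    omega
  have c1 : Rr g K i y = U g K i - 1 + aj g K i j ∨ Rr g K i y = U g K i - aj g K i j ∨
      Rr g K i y = U g K i + aj g K i j ∨ Rr g K i y = U g K i - 1 - aj g K i j := by
    rcases h with ⟨-, -, h | h⟩ | ⟨-, -, h | h⟩ <;> tauto
  have c2 : Rr g K i y = U g K i - 1 + aj g K i j' ∨ Rr g K i y = U g K i - aj g K i j' ∨
      Rr g K i y = U g K i + aj g K i j' ∨ Rr g K i y = U g K i - 1 - aj g K i j' := by
    rcases h' with ⟨-, -, h | h⟩ | ⟨-, -, h | h⟩ <;> tauto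
  rcases lt_or_gt_of_ne hne with hlt | hlt
  · exact key j j' hlt hj' _ c1 c2
  · exact key j' j hlt hj _ c2 c1

theorem h_inner_outer {i j : ℕ} (hj : j < K) {y : ℤ} (h : inner g K i j y) :
    ¬ outer g K i j y := by
  have hu := h_U_pos (g := g) (K := K) (i + 1)
  have e2 := h_aj_pos (g := g) (K := K) (i := i) hj
  rintro ⟨-, -, h'⟩
  obtain ⟨-, -, h⟩ := h
  omega

theorem h_outer_lam {i j : ℕ} {y : ℤ} (h : outer g K i j y) : lam g K i j y := by
  obtain ⟨-, -, h⟩ := h
  unfold lam
  omega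

theorem h_young_lam {i j : ℕ} {y : ℤ} (h : young g K i j y) : lam g K i j y := by
  obtain ⟨j', hj', h⟩ := h
  have hu := h_U_pos (g := g) (K := K) (i + 1)
  have e1 := h_aj_lt (g := g) (K := K) (i := i) hj'
  unfold lam
  rcases h with ⟨-, -, h⟩ | ⟨-, -, h⟩ <;> omega

theorem h_young_newb {i j : ℕ} (hj : j < K) {y : ℤ} (h : young g K i j y) :
    ¬ newb g K i j y := by
  obtain ⟨j', hj', h⟩ := h
  intro h'
  have := h_newb_unique (lt_trans hj' hj) hj h h'
  omega

/-- a row of an earlier generation is static -/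
theorem h_static {i i' j' : ℕ} (hii : i' < i) (hi : i < g) {y : ℤ}
    (h : newb g K i' j' y) : Rr g K i y = U g K i - 1 ∨ Rr g K i y = U g K i := by
  have hal := h_alive_of_newb (lt_trans hii hi) h
  obtain ⟨m, hm⟩ := h_U_dvd (g := g) (K := K) (i := i) (i' := i' + 1) hii hi.le
  have hU := h_U_pos (g := g) (K := K) i
  unfold Rr
  have e : y % (2 * U g K i) = (y % (2 * U g K (i' + 1))) % (2 * U g K i) := by
    rw [Int.emod_emod_of_dvd]
    rw [hm]
    exact ⟨2 * m + 1, by ring⟩
  rw [e]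
  rcases hal with h1 | h1
  · left
    refine h_mod_of_eq (q := m) hU ?_ (by omega) (by omega)
    rw [h1, hm]; ring
  · right
    refine h_mod_of_eq (q := m) hU ?_ (by omega) (by omega)
    rw [h1, hm]; ring

theorem h_static_not {i j : ℕ} (hj : j < K) {y : ℤ}
    (h : Rr g K i y = U g K i - 1 ∨ Rr g K i y = U g K i) :
    ¬ inner g K i j y ∧ ¬ outer g K i j y ∧ ¬ lam g K i j y := by
  have hu := h_U_pos (g := g) (K := K) (i + 1)
  have e2 := h_aj_pos (g := g) (K := K) (i := i) hj
  refine ⟨?_, ?_, ?_⟩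
  · rintro ⟨-, -, h'⟩; omega
  · rintro ⟨-, -, h'⟩; omega
  · unfold lam; omega

theorem h_static_not_young {i j : ℕ} (hj : j ≤ K) {y : ℤ}
    (h : Rr g K i y = U g K i - 1 ∨ Rr g K i y = U g K i) :
    ¬ young g K i j y := by
  rintro ⟨j', hj', h'⟩
  have := h_static_not (lt_of_lt_of_le hj' hj) h
  rcases h' with h' | h'
  · exact this.1 h'
  · exact this.2.1 h'

theorem h_static_alive {i : ℕ} (hi : i < g) {y : ℤ}
    (h : Rr g K i y = U g K i - 1 ∨ Rr g K i y = U g K i) : Alive g K i y := by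
  have hu := h_U_pos (g := g) (K := K) (i + 1)
  have hU := h_U_succ (K := K) hi
  unfold Alive
  rw [← h_Rr_eq hi y]
  rcases h with h | h
  · left
    refine h_mod_of_eq (q := K) hu ?_ (by omega) (by omega)
    rw [h, hU]; unfold B; ring
  · right
    refine h_mod_of_eq (q := K) hu ?_ (by omega) (by omega)
    rw [h, hU]; unfold B; ring

theorem h_isLeaf_dat {x : ℤ} (h : lf g K x) : IsLeaf g K x (dat g K x) := by
  unfold dat
  rw [dif_pos h]
  exact h.choose_spec

theorem h_newb_of_leafAt {i j : ℕ} {k : Bool} {y x : ℤ} (h : LeafAt g K i j k y x) :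
    newb g K i j y ∨ young g K i j y := by
  rcases h with ⟨-, h, -⟩ | ⟨-, h, -⟩ | ⟨h, -⟩
  · exact Or.inl (Or.inl h)
  · exact Or.inl (Or.inr h)
  · exact Or.inr h

theorem h_home_alive {x : ℤ} (h : lf g K x) : Alive g K (dat g K x).i (home g K x) := by
  obtain ⟨h1, h2, h3⟩ := h_isLeaf_dat h
  unfold home
  rcases h_newb_of_leafAt h3 with h4 | h4
  · exact h_alive_of_newb h1 h4
  · exact h_alive_of_young h1 h4

/-- a strand meets the rows which are alive in its generation only at home -/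
theorem h_strand_home {x y : ℤ} (h : lf g K x) (hs : strand g K x y)
    (hy : Alive g K (dat g K x).i y) : y = home g K x := by
  have hh := h_home_alive h
  have hu := h_U_pos (g := g) (K := K) ((dat g K x).i + 1)
  obtain ⟨m, hodd⟩ := h_U_odd (g := g) (K := K) ((dat g K x).i + 1)
  unfold strand tip at hs
  unfold Alive at hh hy
  set u := U g K ((dat g K x).i + 1) with hudef
  set H := home g K x with hH
  by_cases hup : up g K x = true
  · rw [if_pos hup] at hs
    have h2 : H % 2 = 1 := by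
      unfold up at hup
      simpa using hup
    have hHu : H % (2 * u) = u := by
      rcases hh with hh | hh
      · exfalso
        have : H % (2 * u) % 2 = H % 2 := Int.emod_emod_of_dvd _ ⟨u, rfl⟩
        omega
      · exact hh
    have e1 : y = H + (y - H) := by ring
    have hr1 : 0 ≤ y - H := by
      rcases hs with ⟨hs1, hs2⟩
      have : min H (H + (u - 1)) = H := min_eq_left (by omega)
      omega
    have hr2 : y - H ≤ u - 1 := by
      rcases hs with ⟨hs1, hs2⟩
      have : max H (H + (u - 1)) = H + (u - 1) := max_eq_right (by omega)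
      omega
    have e2 : y % (2 * u) = u + (y - H) := by
      refine h_mod_of_eq (q := H / (2 * u)) hu ?_ (by omega) (by omega)
      have := Int.emod_add_mul_ediv H (2 * u)
      rw [hHu] at this
      linarith
    omega
  · rw [if_neg hup] at hs
    have h2 : H % 2 ≠ 1 := by
      unfold up at hup
      simpa using hup
    have hHu : H % (2 * u) = u - 1 := by
      rcases hh with hh | hh
      · exact hh
      · exfalso
        have : H % (2 * u) % 2 = H % 2 := Int.emod_emod_of_dvd _ ⟨u, rfl⟩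
        omega
    have hr1 : y - H ≤ 0 := by
      rcases hs with ⟨hs1, hs2⟩
      have : max H (H - (u - 1)) = H := max_eq_left (by omega)
      omega
    have hr2 : -(u - 1) ≤ y - H := by
      rcases hs with ⟨hs1, hs2⟩
      have : min H (H - (u - 1)) = H - (u - 1) := min_eq_right (by omega)
      omega
    have e2 : y % (2 * u) = u - 1 + (y - H) := by
      refine h_mod_of_eq (q := H / (2 * u)) hu ?_ (by omega) (by omega)
      have := Int.emod_add_mul_ediv H (2 * u)
      rw [hHu] at this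
      linarith
    omega

theorem h_div {i j : ℕ} (hj : j < K) : (i * K + j) / K = i := by
  rw [mul_comm, Nat.mul_add_div (by omega), Nat.div_eq_of_lt hj, add_zero]

theorem h_mod {i j : ℕ} (hj : j < K) : (i * K + j) % K = j := by
  rw [mul_comm, Nat.mul_add_mod, Nat.mod_eq_of_lt hj]

/-- on alive rows the potential is `P0` -/
theorem h_Xp {i j : ℕ} (hj : j < K) (x : ℤ) {y : ℤ} (hy : Alive g K i y) :
    Xp g K (i * K + j) x y = P0 g K i j x y := by
  classical
  unfold Xp
  rw [h_div hj, h_mod hj]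
  split_ifs with h h2
  · obtain ⟨h1, h2', h3⟩ := h
    have hi : (dat g K x).i = i := by
      have hj' := (h_isLeaf_dat h1).2.1
      have := congrArg (· / K) h2'
      simp only [birth, h_div hj', h_div hj] at this
      exact this
    have := h_strand_home h1 h3 (by rw [hi]; exact hy)
    rw [← this]
    simp
  · obtain ⟨h1, h2', h3⟩ := h
    have hi : (dat g K x).i = i := by
      have hj' := (h_isLeaf_dat h1).2.1
      have := congrArg (· / K) h2'
      simp only [birth, h_div hj', h_div hj] at this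
      exact this
    have := h_strand_home h1 h3 (by rw [hi]; exact hy)
    rw [← this]
    simp
  · rfl

theorem h_W_nonneg : 0 ≤ W g K := by
  unfold W
  exact mul_nonneg (h_Hn_nonneg g) h_L_pos.le

theorem h_BIG_pos : 0 < BIG g K := by
  unfold BIG
  have h1 := h_W_nonneg (g := g) (K := K)
  have h2 := h_S_pos (g := g) (K := K) 0
  have h3 := h_M_pos (g := g) (K := K)
  omega

theorem h_c_eta {τ : ℕ} (hτ : τ < g * K) {x : ℤ} (hb : birth g K x < τ) :
    0 ≤ c g K τ * η g K x ∧ c g K τ * η g K x ≤ 1 / 100 := by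
  unfold η
  split_ifs with h
  · norm_num
  · have hB : (1 : ℝ) ≤ (BIG g K : ℝ) := by
      have := h_BIG_pos (g := g) (K := K)
      exact_mod_cast this
    have h100 : (0 : ℝ) < 100 * (BIG g K : ℝ) := by linarith
    have e : g * K - birth g K x = (g * K - τ) + (τ - birth g K x) := by omega
    have hc : c g K τ * ((BIG g K : ℝ) / c g K (birth g K x))
        = (BIG g K : ℝ) / (100 * (BIG g K : ℝ)) ^ (τ - birth g K x) := by
      unfold c
      rw [e, pow_add]
      have h1 : (100 * (BIG g K : ℝ)) ^ (g * K - τ) ≠ 0 := pow_ne_zero _ h100.ne'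
      field_simp
    rw [hc]
    have hp : (0 : ℝ) < (100 * (BIG g K : ℝ)) ^ (τ - birth g K x) := pow_pos h100 _
    constructor
    · positivity
    · rw [div_le_iff₀ hp]
      have h2 : (100 * (BIG g K : ℝ)) ^ 1 ≤ (100 * (BIG g K : ℝ)) ^ (τ - birth g K x) :=
        pow_le_pow_right₀ (by linarith) (by omega)
      rw [pow_one] at h2
      linarith

theorem h_psi_bounds {τ : ℕ} (hτ : τ < g * K) (x : ℤ) :
    (x : ℝ) - 1 / 2 ≤ psi g K τ x ∧ psi g K τ x ≤ x := by
  unfold psi
  split_ifs with h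
  · have := h_c_eta hτ h.2
    constructor <;> linarith [this.1, this.2]
  · constructor <;> linarith

theorem h_psi_lt {τ : ℕ} (hτ : τ < g * K) (x : ℤ) : psi g K τ x < psi g K τ (x + 1) := by
  have h1 := h_psi_bounds hτ x
  have h2 := h_psi_bounds hτ (x + 1)
  push_cast at h2
  linarith [h1.2, h2.1]

theorem h_ind_nonneg (p : Prop) : 0 ≤ ind p := by
  unfold ind; split_ifs <;> simp

theorem h_ind_le (p : Prop) : ind p ≤ 1 := by
  unfold ind; split_ifs <;> simp

theorem h_ind_true {p : Prop} (h : p) : ind p = 1 := by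
  unfold ind; simp [h]

theorem h_ind_false {p : Prop} (h : ¬ p) : ind p = 0 := by
  unfold ind; simp [h]

theorem h_ind_ne {p : Prop} (h : ind p ≠ 0) : p := by
  by_contra hc
  exact h (h_ind_false hc)

theorem h_FH2_nonneg (i j : ℕ) (x y : ℤ) : 0 ≤ FH2 g K i j x y := by
  unfold FH2
  have h1 : 0 ≤ ∑ p ∈ Icc (-Hn g K i) (Hn g K i), ind (inner g K i j y ∧
      p * S g K i - (y / 2 + 1) * S g K (i + 1) ≤ x ∧ x < p * S g K i) :=
    sum_nonneg fun _ _ => h_ind_nonneg _
  have h2 : 0 ≤ ∑ p ∈ Icc (-Hn g K i) (Hn g K i), ind (outer g K i j y ∧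
      p * S g K i ≤ x ∧ x < p * S g K i + (y / 2 + 1) * S g K (i + 1)) :=
    sum_nonneg fun _ _ => h_ind_nonneg _
  have h3 : 0 ≤ ∑ a ∈ range (2 ^ j),
      ind (young g K i j y ∧ -pa g K i j y a ≤ x ∧ x < pa g K i j y a) :=
    sum_nonneg fun _ _ => h_ind_nonneg _
  linarith

/-- field `H_nonneg` -/
theorem H_nonneg (τ : ℕ) (x y : ℤ) (_h : τ < g * K) : 0 ≤ FH g K τ x y := by
  unfold FH
  split_ifs
  · exact h_FH2_nonneg _ _ _ _

/-- the three reasons for a horizontal flow -/
theorem h_FH2_ne {i j : ℕ} {x y : ℤ} (h : FH2 g K i j x y ≠ 0) :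
    (inner g K i j y ∧ ∃ p : ℤ, -Hn g K i ≤ p ∧ p ≤ Hn g K i ∧
      p * S g K i - (y / 2 + 1) * S g K (i + 1) ≤ x ∧ x < p * S g K i) ∨
    (outer g K i j y ∧ ∃ p : ℤ, -Hn g K i ≤ p ∧ p ≤ Hn g K i ∧
      p * S g K i ≤ x ∧ x < p * S g K i + (y / 2 + 1) * S g K (i + 1)) ∨
    (young g K i j y ∧ ∃ a : ℕ, a < 2 ^ j ∧ -pa g K i j y a ≤ x ∧ x < pa g K i j y a) := by
  by_contra hc
  push Not at hc
  obtain ⟨c1, c2, c3⟩ := hc
  apply h
  unfold FH2
  rw [sum_eq_zero, sum_eq_zero, sum_eq_zero]
  · rfl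
  · intro a ha
    apply h_ind_false
    rintro ⟨h1, h2, h3⟩
    have := c3 h1 a (mem_range.1 ha) h2
    omega
  · intro p hp
    rw [mem_Icc] at hp
    apply h_ind_false
    rintro ⟨h1, h2, h3⟩
    have := c2 h1 p hp.1 hp.2 h2
    omega
  · intro p hp
    rw [mem_Icc] at hp
    apply h_ind_false
    rintro ⟨h1, h2, h3⟩
    have := c1 h1 p hp.1 hp.2 h2
    omega

theorem h_FH2_alive {i j : ℕ} {x y : ℤ} (h : FH2 g K i j x y ≠ 0) :
    newb g K i j y ∨ young g K i j y := by
  rcases h_FH2_ne h with ⟨h1, -⟩ | ⟨h1, -⟩ | ⟨h1, -⟩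
  · exact Or.inl (Or.inl h1)
  · exact Or.inl (Or.inr h1)
  · exact Or.inr h1

theorem h_neg_emod {x p S r : ℤ} (h : x = p * S - r) (h0 : 0 ≤ r) (h1 : r < S) :
    (-x) % S = r := by
  have : -x = r + S * (-p) := by rw [h]; ring
  rw [this, Int.add_mul_emod_self_left]
  exact Int.emod_eq_of_lt h0 h1

theorem h_P0_inner {i j : ℕ} {x y : ℤ} (h : inner g K i j y) :
    P0 g K i j x y = ((s0 g K - (-x) % S g K i : ℤ) : ℝ) := by
  classical
  unfold P0
  rw [if_pos h]

theorem h_P0_lam {i j : ℕ} {x y : ℤ} (h : ¬ inner g K i j y) (h' : lam g K i j y) :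
    P0 g K i j x y = psi g K (i * K + j) x := by
  classical
  unfold P0
  rw [if_neg h, if_pos h']

theorem h_P0_static {i j : ℕ} {x y : ℤ} (h : ¬ inner g K i j y) (h' : ¬ lam g K i j y) :
    P0 g K i j x y = (s0 g K : ℝ) := by
  classical
  unfold P0
  rw [if_neg h, if_neg h']

theorem h_half_bound {y : ℤ} (h0 : 0 ≤ y) (h1 : y < M g K) : 1 ≤ y / 2 + 1 ∧
    y / 2 + 1 ≤ B K ^ g := by
  unfold M at h1
  omega

theorem h_lt_level {i j : ℕ} (hi : i < g) (hj : j < K) : i * K + j < g * K := by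
  have : (i + 1) * K ≤ g * K := Nat.mul_le_mul_right K hi
  have e : (i + 1) * K = i * K + K := by ring
  omega

/-- strict monotonicity of the potential on an edge with a flow -/
theorem h_dir2 {i j : ℕ} (hi : i < g) (hj : j < K) {x y : ℤ} (h : FH2 g K i j x y ≠ 0) :
    P0 g K i j x y < P0 g K i j (x + 1) y := by
  have hS := h_S_pos (g := g) (K := K) i
  have hS' := h_S_pos (g := g) (K := K) (i + 1)
  rcases h_FH2_ne h with ⟨h1, p, hp1, hp2, h2, h3⟩ | ⟨h1, -⟩ | ⟨h1, -⟩
  · rw [h_P0_inner h1, h_P0_inner h1]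
    have hb := h_half_bound h1.1 h1.2.1
    have hle : (y / 2 + 1) * S g K (i + 1) ≤ B K ^ g * S g K (i + 1) :=
      mul_le_mul_of_nonneg_right hb.2 hS'.le
    have hSS : S g K i = 2 * (B K ^ g * S g K (i + 1)) + S g K (i + 1) := by
      rw [h_S_succ hi]; unfold sg; ring
    have hpos : 0 ≤ B K ^ g * S g K (i + 1) := by
      have : 0 < B K ^ g := pow_pos h_B_pos _
      positivity
    have e1 : (-x) % S g K i = p * S g K i - x :=
      h_neg_emod (p := p) (by ring) (by omega) (by omega)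
    have e2 : (-(x + 1)) % S g K i = p * S g K i - (x + 1) :=
      h_neg_emod (p := p) (by ring) (by omega) (by omega)
    rw [e1, e2]
    push_cast
    linarith
  · have hni : ¬ inner g K i j y := fun hc => h_inner_outer hj hc h1
    rw [h_P0_lam hni (h_outer_lam h1), h_P0_lam hni (h_outer_lam h1)]
    exact h_psi_lt (h_lt_level hi hj) x
  · have hni : ¬ inner g K i j y := fun hc => h_young_newb hj h1 (Or.inl hc)
    rw [h_P0_lam hni (h_young_lam h1), h_P0_lam hni (h_young_lam h1)]
    exact h_psi_lt (h_lt_level hi hj) x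

theorem h_split {τ : ℕ} (h : τ < g * K) : ∃ i j, i < g ∧ j < K ∧ τ = i * K + j := by
  have hK : 0 < K := by
    rcases Nat.eq_zero_or_pos K with h0 | h0
    · subst h0; simp at h
    · exact h0
  refine ⟨τ / K, τ % K, Nat.div_lt_of_lt_mul (by rwa [mul_comm]), Nat.mod_lt _ hK, ?_⟩
  rw [mul_comm]; exact (Nat.div_add_mod τ K).symm

theorem h_FH {i j : ℕ} (hi : i < g) (hj : j < K) (x y : ℤ) :
    FH g K (i * K + j) x y = FH2 g K i j x y := by
  unfold FH
  rw [if_pos (h_lt_level hi hj), h_div hj, h_mod hj]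

/-- field `H_dir` -/
theorem H_dir (τ : ℕ) (x y : ℤ) (hτ : τ < g * K) (h : 0 < FH g K τ x y) :
    Xp g K τ x y < Xp g K τ (x + 1) y := by
  obtain ⟨i, j, hi, hj, rfl⟩ := h_split hτ
  rw [h_FH hi hj] at h
  have hal : Alive g K i y := by
    rcases h_FH2_alive h.ne' with h1 | h1
    · exact h_alive_of_newb hi h1
    · exact h_alive_of_young hi h1
  rw [h_Xp hj x hal, h_Xp hj (x + 1) hal]
  exact h_dir2 hi hj h.ne'

/-- the level of the first flow of a row -/
theorem h_level_of_FH2 {i j : ℕ} {x y : ℤ} (h : FH2 g K i j x y ≠ 0) :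
    ∃ j0 ≤ j, newb g K i j0 y := by
  rcases h_FH2_alive h with h1 | ⟨j', hj', h1⟩
  · exact ⟨j, le_rfl, h1⟩
  · exact ⟨j', hj'.le, h1⟩

theorem h_pa_mono {i j j' : ℕ} (hjj : j' < j) (hj : j < K) {y : ℤ} {a a' : ℕ}
    (ha' : a' < 2 ^ j') : pa g K i j' y a' ≤ pa g K i j y a := by
  have hS' := h_S_pos (g := g) (K := K) (i + 1)
  have hM := h_M_pos (g := g) (K := K)
  unfold pa
  apply mul_le_mul_of_nonneg_right _ hS'.le
  have h1 : (a' : ℤ) ≤ 2 ^ K := by
    have : 2 ^ j' ≤ 2 ^ K := Nat.pow_le_pow_right (by norm_num) (by omega)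
    exact_mod_cast (ha'.le.trans this)
  have h2 : ((j' : ℤ) + 1) ≤ j := by exact_mod_cast hjj
  have h3 : (0 : ℤ) < 2 ^ K := by positivity
  have h4 : ((j' : ℤ) + 1) * M g K ≤ j * M g K := mul_le_mul_of_nonneg_right h2 hM.le
  have h5 : ((j' : ℤ) * M g K + y) * 2 ^ K + 2 ^ K ≤ (j * M g K + y) * 2 ^ K := by
    have : ((j' : ℤ) * M g K + y + 1) * 2 ^ K ≤ (j * M g K + y) * 2 ^ K := by
      apply mul_le_mul_of_nonneg_right _ h3.le
      nlinarith
    nlinarith
  have h6 : (0 : ℤ) ≤ a := by positivity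
  linarith

/-- the edges which had a flow at an earlier level of the generation carry `2^j` now -/
theorem h_contained {i j j' : ℕ} (hi : i < g) (hjj : j' < j) (hj : j < K) {x y : ℤ}
    (h : FH2 g K i j' x y ≠ 0) (a : ℕ) : -pa g K i j y a ≤ x ∧ x < pa g K i j y a := by
  have hS' := h_S_pos (g := g) (K := K) (i + 1)
  have hM := h_M_pos (g := g) (K := K)
  have hH := h_Hn_nonneg (g := g) (K := K) i
  have hsg := h_sg_pos (g := g) (K := K)
  have hBg : 0 < B K ^ g := pow_pos h_B_pos _
  have big : ∀ y' : ℤ, 0 ≤ y' → (sg g K * Hn g K i + B K ^ g) * S g K (i + 1) < pa g K i j y' a := by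
    intro y' hy'
    unfold pa
    apply mul_lt_mul_of_pos_right _ hS'
    have : 0 ≤ ((j : ℤ) * M g K + y') * 2 ^ K + (a : ℤ) := by positivity
    linarith
  have pS : ∀ p : ℤ, -Hn g K i ≤ p → p ≤ Hn g K i →
      -(sg g K * Hn g K i * S g K (i + 1)) ≤ p * S g K i ∧
        p * S g K i ≤ sg g K * Hn g K i * S g K (i + 1) := by
    intro p h1 h2
    have e : p * S g K i = p * (sg g K * S g K (i + 1)) := by rw [h_S_succ hi]
    have hpos : 0 ≤ sg g K * S g K (i + 1) := by positivity
    have e1 := mul_le_mul_of_nonneg_right h1 hpos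
    have e2 := mul_le_mul_of_nonneg_right h2 hpos
    rw [e]
    constructor <;> linarith
  rcases h_FH2_ne h with ⟨h1, p, hp1, hp2, h2, h3⟩ | ⟨h1, p, hp1, hp2, h2, h3⟩ |
      ⟨h1, a', ha', h2, h3⟩
  · have hb := h_half_bound h1.1 h1.2.1
    have hle : (y / 2 + 1) * S g K (i + 1) ≤ B K ^ g * S g K (i + 1) :=
      mul_le_mul_of_nonneg_right hb.2 hS'.le
    have hpos : 0 ≤ B K ^ g * S g K (i + 1) := by positivity
    have := big y h1.1
    have := pS p hp1 hp2
    constructor <;> nlinarith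
  · have hb := h_half_bound h1.1 h1.2.1
    have hle : (y / 2 + 1) * S g K (i + 1) ≤ B K ^ g * S g K (i + 1) :=
      mul_le_mul_of_nonneg_right hb.2 hS'.le
    have hpos : 0 ≤ B K ^ g * S g K (i + 1) := by positivity
    have := big y h1.1
    have := pS p hp1 hp2
    constructor <;> nlinarith
  · have := h_pa_mono (g := g) (i := i) hjj hj (y := y) (a := a) ha'
    constructor <;> linarith

theorem h_FH2_young {i j : ℕ} (hj : j < K) {x y : ℤ} (hy : young g K i j y) :
    FH2 g K i j x y = ∑ a ∈ range (2 ^ j), ind (-pa g K i j y a ≤ x ∧ x < pa g K i j y a) := by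
  unfold FH2
  have hn := h_young_newb hj hy
  rw [sum_eq_zero, sum_eq_zero, zero_add, zero_add]
  · refine sum_congr rfl fun a _ => ?_
    simp [hy]
  · intro p _
    exact h_ind_false fun hc => hn (Or.inr hc.1)
  · intro p _
    exact h_ind_false fun hc => hn (Or.inl hc.1)

theorem h_FH2_full {i j j' : ℕ} (hi : i < g) (hjj : j' < j) (hj : j < K) {x y : ℤ}
    (h : FH2 g K i j' x y ≠ 0) : FH2 g K i j x y = 2 ^ j := by
  obtain ⟨j0, hj0, hn⟩ := h_level_of_FH2 h
  have hy : young g K i j y := ⟨j0, lt_of_le_of_lt hj0 hjj, hn⟩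
  rw [h_FH2_young hj hy, sum_congr rfl fun a _ => h_ind_true (h_contained hi hjj hj h a)]
  simp

/-- at most one flow on newborn rows, at most `2^j` always -/
theorem h_FH2_le {i j : ℕ} (hi : i < g) (hj : j < K) (x y : ℤ) : FH2 g K i j x y ≤ 2 ^ j := by
  by_cases hy : young g K i j y
  · rw [h_FH2_young hj hy]
    calc _ ≤ ∑ a ∈ range (2 ^ j), (1 : ℤ) := sum_le_sum fun _ _ => h_ind_le _
      _ = 2 ^ j := by simp
  · have hS := h_S_pos (g := g) (K := K) i
    have hS' := h_S_pos (g := g) (K := K) (i + 1)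
    have hSS : S g K i = 2 * (B K ^ g * S g K (i + 1)) + S g K (i + 1) := by
      rw [h_S_succ hi]; unfold sg; ring
    have hpos : 0 < B K ^ g * S g K (i + 1) := by
      have : 0 < B K ^ g := pow_pos h_B_pos _
      positivity
    have hone : (1 : ℤ) ≤ 2 ^ j := one_le_pow₀ (by norm_num)
    have uniq : ∀ p q : ℤ, ∀ r s : ℤ, 0 ≤ r → r < S g K i → 0 ≤ s → s < S g K i →
        p * S g K i + r = q * S g K i + s → p = q := by
      intro p q r s h1 h2 h3 h4 h5
      have e : (p - q) * S g K i = s - r := by linarith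
      by_contra hne
      rcases lt_or_gt_of_ne hne with h | h
      · have : (p - q) * S g K i ≤ (-1) * S g K i :=
          mul_le_mul_of_nonneg_right (by omega) hS.le
        linarith
      · have : 1 * S g K i ≤ (p - q) * S g K i :=
          mul_le_mul_of_nonneg_right (by omega) hS.le
        linarith
    have sum_le : ∀ P : ℤ → Prop, (∀ p q, P p → P q → p = q) →
        ∑ p ∈ Icc (-Hn g K i) (Hn g K i), ind (P p) ≤ 1 := by
      classical
      intro P hP
      have : ∑ p ∈ Icc (-Hn g K i) (Hn g K i), ind (P p)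
          = ((Icc (-Hn g K i) (Hn g K i)).filter P).card := by
        unfold ind
        rw [card_filter]
        push_cast
        rfl
      rw [this]
      exact_mod_cast card_le_one.2 fun p hp q hq =>
        hP p q (mem_filter.1 hp).2 (mem_filter.1 hq).2
    have h3 : ∑ a ∈ range (2 ^ j),
        ind (young g K i j y ∧ -pa g K i j y a ≤ x ∧ x < pa g K i j y a) = 0 :=
      sum_eq_zero fun a _ => h_ind_false fun hc => hy hc.1
    have bnd : 0 ≤ y → y < M g K → 0 < (y / 2 + 1) * S g K (i + 1) ∧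
        (y / 2 + 1) * S g K (i + 1) ≤ B K ^ g * S g K (i + 1) := by
      intro h0 h1
      have hb := h_half_bound h0 h1
      exact ⟨by nlinarith, mul_le_mul_of_nonneg_right hb.2 hS'.le⟩
    by_cases hin : inner g K i j y
    · have hout := h_inner_outer hj hin
      have h2 : ∑ p ∈ Icc (-Hn g K i) (Hn g K i), ind (outer g K i j y ∧
          p * S g K i ≤ x ∧ x < p * S g K i + (y / 2 + 1) * S g K (i + 1)) = 0 :=
        sum_eq_zero fun a _ => h_ind_false fun hc => hout hc.1
      have h1 := sum_le (fun p => inner g K i j y ∧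
        p * S g K i - (y / 2 + 1) * S g K (i + 1) ≤ x ∧ x < p * S g K i) (by
          intro p q hp hq
          have hb := bnd hin.1 hin.2.1
          have := uniq (-p) (-q) (p * S g K i - x) (q * S g K i - x) (by omega) (by omega)
            (by omega) (by omega) (by ring)
          omega)
      unfold FH2
      rw [h2, h3]
      linarith
    · have h1 : ∑ p ∈ Icc (-Hn g K i) (Hn g K i), ind (inner g K i j y ∧
          p * S g K i - (y / 2 + 1) * S g K (i + 1) ≤ x ∧ x < p * S g K i) = 0 :=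
        sum_eq_zero fun a _ => h_ind_false fun hc => hin hc.1
      have h2 := sum_le (fun p => outer g K i j y ∧
        p * S g K i ≤ x ∧ x < p * S g K i + (y / 2 + 1) * S g K (i + 1)) (by
          intro p q hp hq
          have hb := bnd hp.1.1 hp.1.2.1
          exact uniq p q (x - p * S g K i) (x - q * S g K i) (by omega) (by omega)
            (by omega) (by omega) (by ring))
      unfold FH2
      rw [h1, h3]
      linarith

/-- in a later generation a row is static -/
theorem h_later {i i' j' : ℕ} (hii : i' < i) (hi : i < g) {x y : ℤ}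
    (h : FH2 g K i' j' x y ≠ 0) : Rr g K i y = U g K i - 1 ∨ Rr g K i y = U g K i := by
  obtain ⟨j0, -, hn⟩ := h_level_of_FH2 h
  exact h_static hii hi hn

/-- field `H_flat` -/
theorem H_flat (τ τ' : ℕ) (x y : ℤ) (hlt : τ' < τ) (hτ : τ < g * K)
    (h' : FH g K τ' x y ≠ 0) (h : FH g K τ x y = 0) : Xp g K τ x y = Xp g K τ (x + 1) y := by
  obtain ⟨i, j, hi, hj, rfl⟩ := h_split hτ
  obtain ⟨i', j', hi', hj', rfl⟩ := h_split (lt_trans hlt hτ)
  rw [h_FH hi' hj'] at h'
  rw [h_FH hi hj] at h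
  have hii : i' ≤ i := by
    by_contra hc
    have : (i + 1) * K ≤ i' * K := Nat.mul_le_mul_right K (by omega)
    have e : (i + 1) * K = i * K + K := by ring
    omega
  rcases hii.lt_or_eq with hii | rfl
  · have hst := h_later hii hi h'
    have hal := h_static_alive hi hst
    have hn := h_static_not hj hst
    rw [h_Xp hj x hal, h_Xp hj (x + 1) hal, h_P0_static hn.1 hn.2.2, h_P0_static hn.1 hn.2.2]
  · have := h_FH2_full hi (by omega) hj h'
    rw [h] at this
    have h2 : (0 : ℤ) < 2 ^ j := by positivity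
    omega

/-- field `H_super` -/
theorem H_super (τ : ℕ) (x y : ℤ) (hτ : τ < g * K) (h : FH g K τ x y ≠ 0) :
    (∑ τ' ∈ range τ, FH g K τ' x y) ≤ FH g K τ x y := by
  obtain ⟨i, j, hi, hj, rfl⟩ := h_split hτ
  rw [h_FH hi hj] at h ⊢
  rw [sum_range_add]
  have e1 : ∑ τ' ∈ range (i * K), FH g K τ' x y = 0 := by
    refine sum_eq_zero fun τ' hτ' => ?_
    rw [mem_range] at hτ'
    obtain ⟨i', j', hi', hj', rfl⟩ := h_split
      (lt_of_lt_of_le hτ' (Nat.mul_le_mul_right K hi.le))
    rw [h_FH hi' hj']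
    by_contra hc
    have hii : i' < i := by
      by_contra hc2
      have : i * K ≤ i' * K := Nat.mul_le_mul_right K (by omega)
      omega
    have hst := h_later hii hi hc
    rcases h_FH2_alive h with h1 | h1
    · have := h_static_not hj hst
      rcases h1 with h1 | h1
      · exact this.1 h1
      · exact this.2.1 h1
    · exact h_static_not_young hj.le hst h1
  rw [e1, zero_add]
  have e2 : ∀ j' ∈ range j, FH g K (i * K + j') x y = FH2 g K i j' x y := by
    intro j' hj'
    rw [mem_range] at hj'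
    exact h_FH hi (lt_trans hj' hj) x y
  rw [sum_congr rfl e2]
  by_cases hex : ∃ j' ∈ range j, FH2 g K i j' x y ≠ 0
  · obtain ⟨j1, hj1, hne⟩ := hex
    rw [h_FH2_full hi (mem_range.1 hj1) hj hne]
    calc ∑ j' ∈ range j, FH2 g K i j' x y ≤ ∑ j' ∈ range j, (2 : ℤ) ^ j' :=
          sum_le_sum fun j' hj' => h_FH2_le hi (lt_trans (mem_range.1 hj') hj) x y
      _ ≤ 2 ^ j := by
          have : ∀ n : ℕ, ∑ j' ∈ range n, (2 : ℤ) ^ j' = 2 ^ n - 1 := by
            intro n
            induction n with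
            | zero => simp
            | succ n ih => rw [sum_range_succ, ih, pow_succ]; ring
          rw [this]
          omega
  · push Not at hex
    rw [sum_eq_zero hex]
    exact h_FH2_nonneg _ _ _ _

end RNB.B3
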