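import Pool.Agent.RNB.Defs

/-!
# Project RN, plan C, part B3: the explicit certificate on the grid (definitions)

Level `τ = i * K + j` = generation `i < g`, step `j < K`.  Rows `y = 0 .. M-1`, `M = 2 B^g`,
`B = 2K+1`; block `v` = rows `2v, 2v+1`.  All numbers were checked by a program
(`g,K = (1,1),(1,2),(1,3),(2,1),(2,2),(3,1)`).
-/

set_option autoImplicit false

namespace RNB.B3

open Finset

variable (g K : ℕ)

/-- `B = 2K+1` -/
def B : ℤ := 2 * (K : ℤ) + 1

/-- `U i = B^(g-i)`; the period of the rows in generation `i` is `2 U i`; `u = U (i+1)` -/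
def U (i : ℕ) : ℤ := B K ^ (g - i)

/-- number of rows -/
def M : ℤ := 2 * B K ^ g

/-- spacing of the leaf columns -/
def L : ℤ := 2 * (M g K + 2)

/-- stride of a generation of columns -/
def sg : ℤ := 2 * B K ^ g + 1

/-- `S i` = spacing of the old columns in generation `i`; `s = S (i+1)` -/
def S (i : ℕ) : ℤ := L g K * sg g K ^ (g - i)

/-- number of (possible) end columns on one side in one generation -/
def E : ℤ := K * M g K * 2 ^ K

/-- half width, in units of `S i`, of the old columns of generation `i` -/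
def Hn : ℕ → ℤ
  | 0 => 0
  | i + 1 => sg g K * Hn i + B K ^ g + E g K

/-- half width -/
def W : ℤ := Hn g K g * L g K

/-- relative row in generation `i` -/
def Rr (i : ℕ) (y : ℤ) : ℤ := y % (2 * U g K i)

/-- distance of the newborn blocks of level `(i,j)` from the static blocks -/
def aj (i j : ℕ) : ℤ := 2 * ((K : ℤ) - j) * U g K (i + 1)

/-- inner row (facing the static block) of a newborn block of level `(i,j)` -/
def inner (i j : ℕ) (y : ℤ) : Prop :=
  0 ≤ y ∧ y < M g K ∧ (Rr g K i y = U g K i - 1 + aj g K i j ∨ Rr g K i y = U g K i - aj g K i j)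

/-- outer row of a newborn block of level `(i,j)` -/
def outer (i j : ℕ) (y : ℤ) : Prop :=
  0 ≤ y ∧ y < M g K ∧ (Rr g K i y = U g K i + aj g K i j ∨ Rr g K i y = U g K i - 1 - aj g K i j)

/-- `y` is a row of a newborn block of level `(i,j)` -/
def newb (i j : ℕ) (y : ℤ) : Prop := inner g K i j y ∨ outer g K i j y

/-- young rows of level `(i,j)` -/
def young (i j : ℕ) (y : ℤ) : Prop := ∃ j' < j, newb g K i j' y

/-- the rows at the potential `ψ` (the others are at `s0`) -/
def lam (i j : ℕ) (y : ℤ) : Prop :=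
  U g K i + aj g K i j ≤ Rr g K i y ∨ Rr g K i y ≤ U g K i - 1 - aj g K i j

/-- old columns of generation `i` -/
def old (i : ℕ) (x : ℤ) : Prop := ∃ p : ℤ, -Hn g K i ≤ p ∧ p ≤ Hn g K i ∧ x = p * S g K i

/-- position (positive side) of the end leaf number `a` of row `y`, level `(i,j)` -/
def pa (i j : ℕ) (y : ℤ) (a : ℕ) : ℤ :=
  (sg g K * Hn g K i + B K ^ g + 1 + (j * M g K + y) * 2 ^ K + a) * S g K (i + 1)

/-- there is a leaf with home row `y` in column `x`, born at level `(i,j)`;
`k = true`: sink, `k = false`: source -/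
def LeafAt (i j : ℕ) (k : Bool) (y x : ℤ) : Prop :=
  (k = false ∧ inner g K i j y ∧ old g K i (x + (y / 2 + 1) * S g K (i + 1))) ∨
  (k = true ∧ outer g K i j y ∧ old g K i (x - (y / 2 + 1) * S g K (i + 1))) ∨
  (young g K i j y ∧ ∃ a : ℕ, a < 2 ^ j ∧ x = (if k then 1 else -1) * pa g K i j y a)

/-- the data of a leaf: generation, step, kind, home row -/
structure LData where
  i : ℕ
  j : ℕ
  k : Bool
  y : ℤ

/-- `d` describes the leaf of column `x` -/
def IsLeaf (x : ℤ) (d : LData) : Prop := d.i < g ∧ d.j < K ∧ LeafAt g K d.i d.j d.k d.y x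

/-- there is a leaf in column `x` -/
def lf (x : ℤ) : Prop := ∃ d, IsLeaf g K x d

open Classical in
/-- the leaf of column `x` -/
noncomputable def dat (x : ℤ) : LData := if h : lf g K x then h.choose else ⟨0, 0, true, 0⟩

noncomputable def home (x : ℤ) : ℤ := (dat g K x).y

noncomputable def snk (x : ℤ) : Bool := (dat g K x).k

noncomputable def birth (x : ℤ) : ℕ := (dat g K x).i * K + (dat g K x).j

/-- hanging upwards iff the home row is odd -/
noncomputable def up (x : ℤ) : Bool := decide (home g K x % 2 = 1)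

/-- the row of the hub carrying the leaf -/
noncomputable def tip (x : ℤ) : ℤ :=
  if up g K x then home g K x + (U g K ((dat g K x).i + 1) - 1)
  else home g K x - (U g K ((dat g K x).i + 1) - 1)

/-- a large number -/
def BIG : ℤ := 2 * W g K + S g K 0 + M g K + 2

/-- slope of level `τ` -/
noncomputable def c (τ : ℕ) : ℝ := (100 * (BIG g K : ℝ)) ^ (g * K - τ)

/-- vertical offset of the leaf of column `x` -/
noncomputable def η (x : ℤ) : ℝ := if snk g K x then 0 else (BIG g K : ℝ) / c g K (birth g K x)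

/-- the static potential -/
def s0 : ℤ := -(W g K + 1)

open Classical in
/-- potential of column `x` on young rows -/
noncomputable def psi (τ : ℕ) (x : ℤ) : ℝ :=
  if lf g K x ∧ birth g K x < τ then x - c g K τ * η g K x else x - 1 / 2

open Classical in
/-- potential without the strands of the leaves born at this level -/
noncomputable def P0 (i j : ℕ) (x y : ℤ) : ℝ :=
  if inner g K i j y then ((s0 g K - (-x) % S g K i : ℤ) : ℝ)
  else if lam g K i j y then psi g K (i * K + j) x else (s0 g K : ℝ)

/-- `y` is on the strand of the leaf of column `x` -/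
noncomputable def strand (x y : ℤ) : Prop :=
  min (home g K x) (tip g K x) ≤ y ∧ y ≤ max (home g K x) (tip g K x)

open Classical in
/-- the potential -/
noncomputable def Xp (τ : ℕ) (x y : ℤ) : ℝ :=
  if lf g K x ∧ birth g K x = τ ∧ strand g K x y then
    P0 g K (τ / K) (τ % K) x (home g K x) +
      (if snk g K x then (|y - home g K x| : ℤ) / (4 * (M g K : ℝ)) else -((|y - home g K x| : ℤ) : ℝ))
  else P0 g K (τ / K) (τ % K) x y

open Classical in
/-- indicator -/
noncomputable def ind (p : Prop) : ℤ := if p then 1 else 0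

/-- horizontal flow on the edge `(x,y) - (x+1,y)` -/
noncomputable def FH2 (i j : ℕ) (x y : ℤ) : ℤ :=
  (∑ p ∈ Icc (-Hn g K i) (Hn g K i), ind (inner g K i j y ∧
      p * S g K i - (y / 2 + 1) * S g K (i + 1) ≤ x ∧ x < p * S g K i)) +
  (∑ p ∈ Icc (-Hn g K i) (Hn g K i), ind (outer g K i j y ∧
      p * S g K i ≤ x ∧ x < p * S g K i + (y / 2 + 1) * S g K (i + 1))) +
  ∑ a ∈ range (2 ^ j), ind (young g K i j y ∧ -pa g K i j y a ≤ x ∧ x < pa g K i j y a)

noncomputable def FH (τ : ℕ) (x y : ℤ) : ℤ :=
  if τ < g * K then FH2 g K (τ / K) (τ % K) x y else 0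

/-- vertical flow of the converters on the edge `(x,y) - (x,y+1)` -/
noncomputable def FVc (i j : ℕ) (x y : ℤ) : ℤ :=
  ind (old g K i x ∧ 0 ≤ y ∧ y < M g K ∧ Rr g K i y = U g K i - 1 + aj g K i j) -
  ind (old g K i x ∧ 0 ≤ y ∧ y < M g K ∧ Rr g K i y = U g K i - 1 - aj g K i j)

/-- vertical flow of the strands: `+1` = upwards -/
noncomputable def FVs (τ : ℕ) (x y : ℤ) : ℤ :=
  ind (lf g K x ∧ birth g K x = τ ∧
      min (home g K x) (tip g K x) ≤ y ∧ y < max (home g K x) (tip g K x)) *
    (if up g K x = snk g K x then 1 else -1)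

noncomputable def FV (τ : ℕ) (x y : ℤ) : ℤ :=
  if τ < g * K then FVc g K (τ / K) (τ % K) x y + FVs g K τ x y else 0

end RNB.B3
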