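import Pool.Agent.RNB.B3Defs

/-!
# Project RN, plan C, part B3: column arithmetic (helper23)

Order and disjointness of the families of leaf columns, range of the leaf columns.
-/

set_option autoImplicit false

namespace RNB.B3

open Finset

variable {g K : ℕ}

theorem B_pos' : 0 < B K := by unfold B; positivity

theorem Bg_pos : 0 < B K ^ g := pow_pos B_pos' _

theorem sg_pos : 0 < sg g K := by
  have := Bg_pos (g := g) (K := K)
  unfold sg; omega

theorem Mpos' : 0 < M g K := by
  have := Bg_pos (g := g) (K := K)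
  unfold M; omega

theorem L_pos : 0 < L g K := by
  have := Mpos' (g := g) (K := K)
  unfold L; omega

theorem S_pos (i : ℕ) : 0 < S g K i := mul_pos L_pos (pow_pos sg_pos _)

theorem S_succ {i : ℕ} (hi : i < g) : S g K i = sg g K * S g K (i + 1) := by
  unfold S
  have : g - i = (g - (i + 1)) + 1 := by omega
  rw [this, pow_succ]
  ring

theorem S_g : S g K g = L g K := by
  unfold S; simp

theorem S_dvd {i i' : ℕ} (h : i ≤ i') : S g K i' ∣ S g K i := by
  unfold S
  exact mul_dvd_mul_left _ (pow_dvd_pow _ (by omega))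

theorem L_dvd_S (i : ℕ) : L g K ∣ S g K i := by
  unfold S
  exact dvd_mul_right _ _

theorem E_nonneg : 0 ≤ E g K := by
  have := Mpos' (g := g) (K := K)
  unfold E; positivity

theorem Hn_nonneg (i : ℕ) : 0 ≤ Hn g K i := by
  induction i with
  | zero => simp [Hn]
  | succ i ih =>
    have h1 := sg_pos (g := g) (K := K)
    have h2 := Bg_pos (g := g) (K := K)
    have h3 := E_nonneg (g := g) (K := K)
    rw [Hn]
    positivity

/-- half width of the old columns, in absolute units -/
theorem HnS_le_succ {i : ℕ} (hi : i < g) : Hn g K i * S g K i ≤ Hn g K (i + 1) * S g K (i + 1) := by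
  rw [S_succ hi, Hn]
  have h1 := S_pos (g := g) (K := K) (i + 1)
  have h2 := Bg_pos (g := g) (K := K)
  have h3 := E_nonneg (g := g) (K := K)
  nlinarith

theorem HnS_mono {i i' : ℕ} (h : i ≤ i') (hi' : i' ≤ g) :
    Hn g K i * S g K i ≤ Hn g K i' * S g K i' := by
  induction i', h using Nat.le_induction with
  | base => exact le_refl _
  | succ n hn ih => exact (ih (by omega)).trans (HnS_le_succ (by omega))

theorem HnS_le_W {i : ℕ} (hi : i ≤ g) : Hn g K i * S g K i ≤ W g K := by
  have h := HnS_mono (K := K) hi (le_refl g)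
  rwa [S_g] at h

/-- number of the block of a row, shifted by one -/
theorem blk_pos {y : ℤ} (h0 : 0 ≤ y) : 1 ≤ y / 2 + 1 := by omega

theorem blk_le {y : ℤ} (h1 : y < M g K) : y / 2 + 1 ≤ B K ^ g := by
  unfold M at h1; omega

theorem pa_lower (i j : ℕ) {y : ℤ} (h0 : 0 ≤ y) (a : ℕ) :
    (sg g K * Hn g K i + B K ^ g + 1) * S g K (i + 1) ≤ pa g K i j y a := by
  unfold pa
  have h1 := S_pos (g := g) (K := K) (i + 1)
  have h2 := Mpos' (g := g) (K := K)
  have h3 : (0 : ℤ) ≤ (j * M g K + y) * 2 ^ K + a := by positivity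
  apply mul_le_mul_of_nonneg_right _ h1.le
  linarith

theorem pa_idx_lt {j : ℕ} (hj : j < K) {y : ℤ} (h1 : y < M g K) {a : ℕ} (ha : a < 2 ^ K) :
    (j * M g K + y) * 2 ^ K + a < K * M g K * 2 ^ K := by
  have h2 := Mpos' (g := g) (K := K)
  have h3 : (j : ℤ) + 1 ≤ K := by exact_mod_cast hj
  have h4 : (j * M g K + y) + 1 ≤ K * M g K := by nlinarith
  have h5 : (0 : ℤ) < 2 ^ K := by positivity
  have h6 : (a : ℤ) < 2 ^ K := by exact_mod_cast ha
  nlinarith

theorem pa_upper {i j : ℕ} (hj : j < K) {y : ℤ} (h1 : y < M g K) {a : ℕ} (ha : a < 2 ^ K) :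
    pa g K i j y a ≤ Hn g K (i + 1) * S g K (i + 1) := by
  unfold pa
  rw [Hn, E]
  have h2 := S_pos (g := g) (K := K) (i + 1)
  have h3 := pa_idx_lt (g := g) hj h1 ha
  apply mul_le_mul_of_nonneg_right _ h2.le
  linarith

theorem two_pow_lt {j a : ℕ} (hj : j < K) (ha : a < 2 ^ j) : a < 2 ^ K :=
  lt_of_lt_of_le ha (Nat.pow_le_pow_right (by norm_num) hj.le)

theorem newb_range {i j : ℕ} {y : ℤ} (h : newb g K i j y) : 0 ≤ y ∧ y < M g K := by
  rcases h with h | h <;> exact ⟨h.1, h.2.1⟩

theorem young_range {i j : ℕ} {y : ℤ} (h : young g K i j y) : 0 ≤ y ∧ y < M g K := by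
  obtain ⟨_, _, h⟩ := h
  exact newb_range h

/-- home rows are rows -/
theorem leafAt_range {i j : ℕ} {k : Bool} {y x : ℤ} (h : LeafAt g K i j k y x) :
    0 ≤ y ∧ y < M g K := by
  rcases h with h | h | h
  · exact ⟨h.2.1.1, h.2.1.2.1⟩
  · exact ⟨h.2.1.1, h.2.1.2.1⟩
  · exact young_range h.1

/-- normal form of a leaf column: `x = q * S (i+1)` with
either `q = p * sg + e`, `1 ≤ |e| ≤ B^g`, `|p| ≤ Hn i`, or `|q| ≥ sg * Hn i + B^g + 1` -/
theorem leafAt_form {i j : ℕ} {k : Bool} {y x : ℤ} (hi : i < g) (hj : j < K)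
    (h : LeafAt g K i j k y x) :
    ∃ q : ℤ, x = q * S g K (i + 1) ∧ |q| ≤ Hn g K (i + 1) ∧
      ((∃ p e : ℤ, |p| ≤ Hn g K i ∧ 1 ≤ |e| ∧ |e| ≤ B K ^ g ∧ q = p * sg g K + e) ∨
        sg g K * Hn g K i + B K ^ g + 1 ≤ |q|) := by
  have hS := S_pos (g := g) (K := K) (i + 1)
  have hE := E_nonneg (g := g) (K := K)
  have hsg := sg_pos (g := g) (K := K)
  have conv : ∀ p e : ℤ, |p| ≤ Hn g K i → |e| ≤ B K ^ g → |p * sg g K + e| ≤ Hn g K (i + 1) := by
    intro p e hp he
    have h1 : |p * sg g K + e| ≤ |p * sg g K| + |e| := abs_add_le _ _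
    rw [abs_mul, abs_of_pos hsg] at h1
    rw [Hn]
    nlinarith
  rcases h with ⟨_, hin, p, hp1, hp2, hx⟩ | ⟨_, hout, p, hp1, hp2, hx⟩ | ⟨hyo, a, ha, hx⟩
  · refine ⟨p * sg g K + -(y / 2 + 1), ?_, ?_, Or.inl ⟨p, -(y / 2 + 1), ?_, ?_, ?_, rfl⟩⟩
    · rw [S_succ hi] at hx
      linear_combination hx
    · apply conv
      · rw [abs_le]; exact ⟨by linarith, hp2⟩
      · have h1 := blk_pos hin.1
        have h2 := blk_le hin.2.1
        rw [abs_neg, abs_of_nonneg (by linarith)]
        exact h2
    · rw [abs_le]; exact ⟨by linarith, hp2⟩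
    · have h1 := blk_pos hin.1
      rw [abs_neg, abs_of_nonneg (by linarith)]
      exact h1
    · have h1 := blk_pos hin.1
      have h2 := blk_le hin.2.1
      rw [abs_neg, abs_of_nonneg (by linarith)]
      exact h2
  · refine ⟨p * sg g K + (y / 2 + 1), ?_, ?_, Or.inl ⟨p, (y / 2 + 1), ?_, ?_, ?_, rfl⟩⟩
    · rw [S_succ hi] at hx
      linear_combination hx
    · apply conv
      · rw [abs_le]; exact ⟨by linarith, hp2⟩
      · have h1 := blk_pos hout.1
        have h2 := blk_le hout.2.1
        rw [abs_of_nonneg (by linarith)]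
        exact h2
    · rw [abs_le]; exact ⟨by linarith, hp2⟩
    · have h1 := blk_pos hout.1
      rw [abs_of_nonneg (by linarith)]
      exact h1
    · have h1 := blk_pos hout.1
      have h2 := blk_le hout.2.1
      rw [abs_of_nonneg (by linarith)]
      exact h2
  · obtain ⟨h0, h1⟩ := young_range hyo
    set r : ℤ := sg g K * Hn g K i + B K ^ g + 1 + (j * M g K + y) * 2 ^ K + a with hr
    have hpa : pa g K i j y a = r * S g K (i + 1) := rfl
    have hM := Mpos' (g := g) (K := K)
    have hidx := pa_idx_lt (g := g) hj h1 (two_pow_lt hj ha)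
    have hr1 : sg g K * Hn g K i + B K ^ g + 1 ≤ r := by
      have h3 : (0 : ℤ) ≤ (j * M g K + y) * 2 ^ K + a := by positivity
      linarith
    have hr2 : r ≤ Hn g K (i + 1) := by
      rw [Hn, E]; linarith
    have hr0 : 0 ≤ r := by
      have h3 := Hn_nonneg (g := g) (K := K) i
      have h4 := Bg_pos (g := g) (K := K)
      have h5 : 0 ≤ sg g K * Hn g K i := by positivity
      linarith
    refine ⟨(if k then 1 else -1) * r, ?_, ?_, Or.inr ?_⟩
    · rw [hx, hpa]; ring
    · cases k
      · simp [abs_of_nonneg hr0, hr2]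
      · simp [abs_of_nonneg hr0, hr2]
    · cases k
      · simp [abs_of_nonneg hr0, hr1]
      · simp [abs_of_nonneg hr0, hr1]

/-- leaf columns of generation `i` are old in generation `i+1` -/
theorem old_succ_of_leafAt {i j : ℕ} {k : Bool} {y x : ℤ} (hi : i < g) (hj : j < K)
    (h : LeafAt g K i j k y x) : old g K (i + 1) x := by
  obtain ⟨q, hx, hq, -⟩ := leafAt_form hi hj h
  exact ⟨q, (abs_le.1 hq).1, (abs_le.1 hq).2, hx⟩

theorem old_iff {i : ℕ} {x : ℤ} : old g K i x ↔ S g K i ∣ x ∧ |x| ≤ Hn g K i * S g K i := by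
  have hS := S_pos (g := g) (K := K) i
  constructor
  · rintro ⟨p, h1, h2, rfl⟩
    refine ⟨dvd_mul_left _ _, ?_⟩
    rw [abs_mul, abs_of_pos hS]
    exact mul_le_mul_of_nonneg_right (abs_le.2 ⟨h1, h2⟩) hS.le
  · rintro ⟨⟨p, rfl⟩, h⟩
    rw [abs_mul, abs_of_pos hS, mul_comm] at h
    have h' := le_of_mul_le_mul_right h hS
    exact ⟨p, (abs_le.1 h').1, (abs_le.1 h').2, mul_comm _ _⟩

theorem old_mono {i i' : ℕ} {x : ℤ} (h : i ≤ i') (hi' : i' ≤ g) (hx : old g K i x) :
    old g K i' x := by
  rw [old_iff] at hx ⊢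
  exact ⟨(S_dvd h).trans hx.1, hx.2.trans (HnS_mono h hi')⟩

/-- leaf columns of generation `i` are not old in generation `i` -/
theorem not_old_of_leafAt {i j : ℕ} {k : Bool} {y x : ℤ} (hi : i < g) (hj : j < K)
    (h : LeafAt g K i j k y x) : ¬ old g K i x := by
  obtain ⟨q, hx, hq, h3⟩ := leafAt_form hi hj h
  have hS := S_pos (g := g) (K := K) (i + 1)
  have hBg := Bg_pos (g := g) (K := K)
  rintro ⟨p', hp1, hp2, hx'⟩
  rw [S_succ hi] at hx'
  have hqq : q = p' * sg g K := by
    have : q * S g K (i + 1) = (p' * sg g K) * S g K (i + 1) := by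
      rw [← hx, hx']; ring
    exact mul_right_cancel₀ hS.ne' this
  rcases h3 with ⟨p, e, _, he1, he2, hqe⟩ | h3
  · have hd : sg g K ∣ e := ⟨p' - p, by linarith [hqe, hqq, mul_comm (sg g K) (p' - p), mul_comm p' (sg g K), mul_comm p (sg g K), mul_sub (sg g K) p' p]⟩
    have := Int.le_of_dvd (by omega : 0 < |e|) ((dvd_abs _ _).2 hd)
    unfold sg at this
    omega
  · rw [hqq, abs_mul, abs_of_pos sg_pos] at h3
    have h4 : |p'| ≤ Hn g K i := abs_le.2 ⟨hp1, hp2⟩
    have := sg_pos (g := g) (K := K)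
    nlinarith

/-- range of the leaf columns -/
theorem leafAt_abs_le {i j : ℕ} {k : Bool} {y x : ℤ} (hi : i < g) (hj : j < K)
    (h : LeafAt g K i j k y x) : |x| ≤ W g K := by
  have h1 := (old_iff.1 (old_succ_of_leafAt hi hj h)).2
  exact h1.trans (HnS_le_W (by omega))

theorem leafAt_dvd {i j : ℕ} {k : Bool} {y x : ℤ} (hi : i < g) (hj : j < K)
    (h : LeafAt g K i j k y x) : L g K ∣ x :=
  (L_dvd_S (i + 1)).trans (old_iff.1 (old_succ_of_leafAt hi hj h)).1

/-- the generation of a leaf column is unique -/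
theorem leafAt_gen {i j i' j' : ℕ} {k k' : Bool} {y y' x : ℤ} (hi : i < g) (hj : j < K)
    (hi' : i' < g) (hj' : j' < K) (h : LeafAt g K i j k y x) (h' : LeafAt g K i' j' k' y' x) :
    i = i' := by
  rcases lt_trichotomy i i' with hlt | heq | hgt
  · exact absurd (old_mono hlt hi'.le (old_succ_of_leafAt hi hj h)) (not_old_of_leafAt hi' hj' h')
  · exact heq
  · exact absurd (old_mono hgt hi.le (old_succ_of_leafAt hi' hj' h')) (not_old_of_leafAt hi hj h)

/-- two converters in one column -/
theorem conv_unique {i : ℕ} (hi : i < g) {p p' e e' : ℤ} (he : |e| ≤ B K ^ g) (he' : |e'| ≤ B K ^ g)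
    (h : p * S g K i + e * S g K (i + 1) = p' * S g K i + e' * S g K (i + 1)) :
    p = p' ∧ e = e' := by
  have hS := S_pos (g := g) (K := K) (i + 1)
  rw [S_succ hi] at h
  have h1 : p * sg g K + e = p' * sg g K + e' := by
    have : (p * sg g K + e) * S g K (i + 1) = (p' * sg g K + e') * S g K (i + 1) := by
      linear_combination h
    exact mul_right_cancel₀ hS.ne' this
  have hd : sg g K ∣ e - e' := ⟨p' - p, by linear_combination h1⟩
  have h2 : |e - e'| < sg g K := by
    have := abs_sub e e'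
    have h3 : |e - e'| ≤ |e| + |e'| := abs_sub e e'
    unfold sg; omega
  have h3 : e - e' = 0 := Int.eq_zero_of_abs_lt_dvd hd h2
  have h4 : e = e' := by omega
  subst h4
  refine ⟨?_, rfl⟩
  have h5 : p * sg g K = p' * sg g K := by linarith
  exact mul_right_cancel₀ sg_pos.ne' h5

/-- the end columns are pairwise different -/
theorem pa_unique {i j j' : ℕ} {y y' : ℤ} (h0 : 0 ≤ y) (h1 : y < M g K) (h0' : 0 ≤ y')
    (h1' : y' < M g K) {a a' : ℕ} (ha : a < 2 ^ K) (ha' : a' < 2 ^ K)
    (h : pa g K i j y a = pa g K i j' y' a') : j = j' ∧ y = y' ∧ a = a' := by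
  unfold pa at h
  have hS := S_pos (g := g) (K := K) (i + 1)
  have h2 := mul_right_cancel₀ hS.ne' h
  have h3 : (j * M g K + y) * 2 ^ K + a = (j' * M g K + y') * 2 ^ K + a' := by linarith
  have hP : (0 : ℤ) < 2 ^ K := by positivity
  have ha1 : (a : ℤ) < 2 ^ K := by exact_mod_cast ha
  have ha1' : (a' : ℤ) < 2 ^ K := by exact_mod_cast ha'
  have hmod : ((a : ℤ)) = a' := by
    have e1 : ((j * M g K + y) * 2 ^ K + a) % 2 ^ K = a := by
      rw [add_comm, Int.add_mul_emod_self_right]
      exact Int.emod_eq_of_lt (by positivity) ha1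
    have e2 : ((j' * M g K + y') * 2 ^ K + a') % 2 ^ K = a' := by
      rw [add_comm, Int.add_mul_emod_self_right]
      exact Int.emod_eq_of_lt (by positivity) ha1'
    rw [← e1, ← e2, h3]
  have h4 : j * M g K + y = j' * M g K + y' := by
    have : (j * M g K + y) * 2 ^ K = (j' * M g K + y') * 2 ^ K := by linarith
    exact mul_right_cancel₀ hP.ne' this
  have hM := Mpos' (g := g) (K := K)
  have hmod2 : y = y' := by
    have e1 : (j * M g K + y) % M g K = y := by
      rw [add_comm, Int.add_mul_emod_self_right]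
      exact Int.emod_eq_of_lt h0 h1
    have e2 : (j' * M g K + y') % M g K = y' := by
      rw [add_comm, Int.add_mul_emod_self_right]
      exact Int.emod_eq_of_lt h0' h1'
    rw [← e1, ← e2, h4]
  refine ⟨?_, hmod2, by exact_mod_cast hmod⟩
  have h5 : (j : ℤ) * M g K = j' * M g K := by linarith
  exact_mod_cast mul_right_cancel₀ hM.ne' h5

theorem pa_pos (i j : ℕ) {y : ℤ} (h0 : 0 ≤ y) (a : ℕ) : Hn g K i * S g K i < pa g K i j y a ∨ g ≤ i := by
  rcases lt_or_ge i g with hi | hi
  · left
    have h1 := pa_lower (g := g) (K := K) i j h0 a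
    have h2 := S_pos (g := g) (K := K) (i + 1)
    have h3 := Bg_pos (g := g) (K := K)
    rw [S_succ hi]
    nlinarith
  · exact Or.inr hi

/-- Two leaf data of one column and one generation: same kind, and either both converters of the
same block, or both end leaves of the same row and step. -/
theorem leafAt_same {i j j' : ℕ} {k k' : Bool} {y y' x : ℤ} (hi : i < g) (hj : j < K)
    (hj' : j' < K) (h : LeafAt g K i j k y x) (h' : LeafAt g K i j' k' y' x) :
    k = k' ∧ ((k = false ∧ inner g K i j y ∧ inner g K i j' y' ∧ y / 2 = y' / 2) ∨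
      (k = true ∧ outer g K i j y ∧ outer g K i j' y' ∧ y / 2 = y' / 2) ∨ (j = j' ∧ y = y')) := by
  have hS := S_pos (g := g) (K := K) (i + 1)
  have hSi := S_pos (g := g) (K := K) i
  have hsg := sg_pos (g := g) (K := K)
  have hHn := Hn_nonneg (g := g) (K := K) i
  have hBg := Bg_pos (g := g) (K := K)
  -- converters are inside, ends are outside
  have inside : ∀ p e : ℤ, -Hn g K i ≤ p → p ≤ Hn g K i → |e| ≤ B K ^ g →
      |p * S g K i + e * S g K (i + 1)| ≤ (sg g K * Hn g K i + B K ^ g) * S g K (i + 1) := by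
    intro p e h1 h2 h3
    rw [S_succ hi]
    have : p * (sg g K * S g K (i + 1)) + e * S g K (i + 1) = (p * sg g K + e) * S g K (i + 1) := by ring
    rw [this, abs_mul, abs_of_pos hS]
    apply mul_le_mul_of_nonneg_right _ hS.le
    have h4 : |p * sg g K + e| ≤ |p * sg g K| + |e| := abs_add_le _ _
    rw [abs_mul, abs_of_pos hsg] at h4
    have h5 : |p| ≤ Hn g K i := abs_le.2 ⟨h1, h2⟩
    nlinarith
  have outside : ∀ (k : Bool) (j : ℕ) (y : ℤ) (a : ℕ), 0 ≤ y →
      (sg g K * Hn g K i + B K ^ g) * S g K (i + 1) <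
        |(if k then 1 else -1) * pa g K i j y a| := by
    intro k j y a h0
    have h1 := pa_lower (g := g) (K := K) i j h0 a
    have h2 : 0 ≤ pa g K i j y a := by
      have : 0 ≤ (sg g K * Hn g K i + B K ^ g + 1) * S g K (i + 1) := by positivity
      linarith
    have h3 : |(if k then (1 : ℤ) else -1) * pa g K i j y a| = pa g K i j y a := by
      cases k <;> simp [abs_of_nonneg h2]
    rw [h3]
    nlinarith
  have absm : ∀ y : ℤ, 0 ≤ y → y < M g K → |y / 2 + 1| ≤ B K ^ g := by
    intro y h0 h1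
    have := blk_pos h0
    rw [abs_of_nonneg (by linarith)]
    exact blk_le h1
  have absm' : ∀ y : ℤ, 0 ≤ y → y < M g K → |-(y / 2 + 1)| ≤ B K ^ g := by
    intro y h0 h1
    rw [abs_neg]; exact absm y h0 h1
  rcases h with ⟨hk, hin, p, hp1, hp2, hx⟩ | ⟨hk, hout, p, hp1, hp2, hx⟩ | ⟨hyo, a, ha, hx⟩
  · have hx0 : x = p * S g K i + -(y / 2 + 1) * S g K (i + 1) := by linear_combination hx
    rcases h' with ⟨hk', hin', p', hp1', hp2', hx'⟩ | ⟨hk', hout', p', hp1', hp2', hx'⟩ |
      ⟨hyo', a', ha', hx'⟩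
    · have hx0' : x = p' * S g K i + -(y' / 2 + 1) * S g K (i + 1) := by linear_combination hx'
      have := conv_unique hi (absm' y hin.1 hin.2.1) (absm' y' hin'.1 hin'.2.1) (hx0.symm.trans hx0')
      refine ⟨by rw [hk, hk'], Or.inl ⟨hk, hin, hin', by omega⟩⟩
    · have hx0' : x = p' * S g K i + (y' / 2 + 1) * S g K (i + 1) := by linear_combination hx'
      have := conv_unique hi (absm' y hin.1 hin.2.1) (absm y' hout'.1 hout'.2.1) (hx0.symm.trans hx0')
      have h1 := blk_pos hin.1
      have h2 := blk_pos hout'.1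
      omega
    · have h1 := inside p _ hp1 hp2 (absm' y hin.1 hin.2.1)
      rw [← hx0, hx'] at h1
      have h2 := outside k' j' y' a' (young_range hyo').1
      omega
  · have hx0 : x = p * S g K i + (y / 2 + 1) * S g K (i + 1) := by linear_combination hx
    rcases h' with ⟨hk', hin', p', hp1', hp2', hx'⟩ | ⟨hk', hout', p', hp1', hp2', hx'⟩ |
      ⟨hyo', a', ha', hx'⟩
    · have hx0' : x = p' * S g K i + -(y' / 2 + 1) * S g K (i + 1) := by linear_combination hx'
      have := conv_unique hi (absm y hout.1 hout.2.1) (absm' y' hin'.1 hin'.2.1) (hx0.symm.trans hx0')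
      have h1 := blk_pos hin'.1
      have h2 := blk_pos hout.1
      omega
    · have hx0' : x = p' * S g K i + (y' / 2 + 1) * S g K (i + 1) := by linear_combination hx'
      have := conv_unique hi (absm y hout.1 hout.2.1) (absm y' hout'.1 hout'.2.1) (hx0.symm.trans hx0')
      refine ⟨by rw [hk, hk'], Or.inr (Or.inl ⟨hk, hout, hout', by omega⟩)⟩
    · have h1 := inside p _ hp1 hp2 (absm y hout.1 hout.2.1)
      rw [← hx0, hx'] at h1
      have h2 := outside k' j' y' a' (young_range hyo').1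
      omega
  · obtain ⟨h0, h1⟩ := young_range hyo
    rcases h' with ⟨hk', hin', p', hp1', hp2', hx'⟩ | ⟨hk', hout', p', hp1', hp2', hx'⟩ |
      ⟨hyo', a', ha', hx'⟩
    · have hx0' : x = p' * S g K i + -(y' / 2 + 1) * S g K (i + 1) := by linear_combination hx'
      have h1 := inside p' _ hp1' hp2' (absm' y' hin'.1 hin'.2.1)
      rw [← hx0', hx] at h1
      have h2 := outside k j y a h0
      omega
    · have hx0' : x = p' * S g K i + (y' / 2 + 1) * S g K (i + 1) := by linear_combination hx'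
      have h1 := inside p' _ hp1' hp2' (absm y' hout'.1 hout'.2.1)
      rw [← hx0', hx] at h1
      have h2 := outside k j y a h0
      omega
    · obtain ⟨h0', h1'⟩ := young_range hyo'
      have hp1 : 0 < pa g K i j y a := by
        have := pa_lower (g := g) (K := K) i j h0 a
        have h3 : 0 < (sg g K * Hn g K i + B K ^ g + 1) * S g K (i + 1) := by positivity
        linarith
      have hp2 : 0 < pa g K i j' y' a' := by
        have := pa_lower (g := g) (K := K) i j' h0' a'
        have h3 : 0 < (sg g K * Hn g K i + B K ^ g + 1) * S g K (i + 1) := by positivity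
        linarith
      have hxx := hx.symm.trans hx'
      cases k <;> cases k'
      · simp only [Bool.false_eq_true, if_false] at hxx
        obtain ⟨e1, e2, e3⟩ := pa_unique h0 h1 h0' h1' (two_pow_lt hj ha) (two_pow_lt hj' ha')
          (by linarith : pa g K i j y a = pa g K i j' y' a')
        exact ⟨rfl, Or.inr (Or.inr ⟨e1, e2⟩)⟩
      · simp only [Bool.false_eq_true, if_false, if_true] at hxx
        omega
      · simp only [Bool.false_eq_true, if_false, if_true] at hxx
        omega
      · simp only [if_true] at hxx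
        obtain ⟨e1, e2, e3⟩ := pa_unique h0 h1 h0' h1' (two_pow_lt hj ha) (two_pow_lt hj' ha')
          (by linarith : pa g K i j y a = pa g K i j' y' a')
        exact ⟨rfl, Or.inr (Or.inr ⟨e1, e2⟩)⟩

end RNB.B3
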