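import Mathlib

/-!
# Project RN, plan C: the scale lemma
-/

set_option autoImplicit false

namespace RNB

open Finset

/-- one sequence: for all large `T` the top nonzero coefficient decides the sign -/
theorem scale_one {D : ℕ} (a : Fin D → ℝ) (τ : Fin D) (h0 : ∀ τ', τ < τ' → a τ' = 0)
    (hpos : 0 < a τ) {T : ℝ} (hT : 1 ≤ T) (hT' : (∑ τ', |a τ'|) / a τ < T) :
    0 < ∑ τ' : Fin D, T ^ (τ' : ℕ) * a τ' := by
  have hT0 : 0 < T := lt_of_lt_of_le one_pos hT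
  -- everything times T is larger than T^τ times (T a τ - ∑ |a|)
  have key : ∀ τ', T ^ (τ : ℕ) * (if τ' = τ then T * a τ else 0) - T ^ (τ : ℕ) * |a τ'| ≤
      T * (T ^ (τ' : ℕ) * a τ') := by
    intro τ'
    rcases lt_trichotomy τ' τ with h | h | h
    · rw [if_neg (ne_of_lt h), mul_zero, zero_sub, ← mul_assoc, ← pow_succ']
      have h1 : T ^ ((τ' : ℕ) + 1) ≤ T ^ (τ : ℕ) := pow_le_pow_right₀ hT (by
        have : (τ' : ℕ) < τ := h
        omega)
      have h2 : -|a τ'| ≤ a τ' := neg_abs_le _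
      have h3 : 0 < T ^ ((τ' : ℕ) + 1) := pow_pos hT0 _
      have h4 : 0 ≤ |a τ'| := abs_nonneg _
      nlinarith
    · subst h
      rw [if_pos rfl]
      have h2 : 0 ≤ T ^ (τ' : ℕ) * |a τ'| := by positivity
      nlinarith
    · rw [if_neg (ne_of_gt h), h0 τ' h]
      simp
  have hsum := Finset.sum_le_sum (fun τ' (_ : τ' ∈ univ) => key τ')
  rw [Finset.sum_sub_distrib, ← Finset.mul_sum, ← Finset.mul_sum, ← Finset.mul_sum] at hsum
  rw [Finset.sum_ite_eq' univ τ] at hsum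
  simp only [Finset.mem_univ, if_true] at hsum
  rw [div_lt_iff₀ hpos] at hT'
  have h5 : 0 < T ^ (τ : ℕ) := pow_pos hT0 _
  have h6 : 0 < T ^ (τ : ℕ) * (T * a τ) - T ^ (τ : ℕ) * ∑ τ', |a τ'| := by nlinarith
  have h7 : 0 < T * ∑ τ' : Fin D, T ^ (τ' : ℕ) * a τ' := lt_of_lt_of_le h6 hsum
  exact (mul_pos_iff_of_pos_left hT0).1 h7

/-- **Scale lemma.** For finitely many sequences there is one scale `T`. -/
theorem exists_scale {ι : Type*} [Finite ι] {D : ℕ} (a : ι → Fin D → ℝ) :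
    ∃ T : ℝ, 1 ≤ T ∧ ∀ i τ, (∀ τ', τ < τ' → a i τ' = 0) → 0 < a i τ →
      0 < ∑ τ' : Fin D, T ^ (τ' : ℕ) * a i τ' := by
  classical
  obtain ⟨M, hM⟩ := (Set.finite_range fun p : ι × Fin D =>
    (∑ τ', |a p.1 τ'|) / a p.1 p.2).bddAbove
  refine ⟨max 1 (M + 1), le_max_left _ _, fun i τ h0 hpos => ?_⟩
  refine scale_one (a i) τ h0 hpos (le_max_left _ _) ?_
  have h1 := hM ⟨(i, τ), rfl⟩
  have h2 : M + 1 ≤ max 1 (M + 1) := le_max_right _ _
  simp only at h1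
  linarith

end RNB
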